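import Pool.Agent.U166.OF.Kur

/-!
# Automorphisms of a free product which preserve a factor

Relative versions: `M 0` is any nontrivial group with a group `T` of automorphisms.
-/

set_option autoImplicit false

namespace Pool.Agent.U166.OF

open Monoid.CoprodI Pool.Agent.N77.OF Pool.Agent.Y110.FJ Pool.Agent.R684.FP
open Pool.Agent.R941.FJ (C_equiv C_le C_cyc mem_sup_normal)
open Pool.Agent.Y462.SS (Closed)

variable {C : ∀ (G : Type) [Group G], Prop}

/-- the semidirect product of a group and a group of automorphisms -/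
abbrev HolT {G : Type} [Group G] (T : Subgroup (MulAut G)) : Type := G ⋊[T.subtype] T

/-- extensions by free products with controlled actions on the factors; the other factors are free -/
theorem ext_rel (hC : ClosedE C) (hF : FbC C) {J E : Type} {M : J → Type} [∀ i, Group (M i)]
    [Group E] (S : Set J) (T : ∀ i, Subgroup (MulAut (M i)))
    (hM : ∀ i ∈ S, C (HolT (T i))) (hn : ∀ i ∈ S, Nontrivial (M i))
    (hfr : ∀ i, i ∉ S → IsFreeGroup (M i))
    (ρ : Monoid.CoprodI M →* E) (hρ : Function.Injective ρ)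
    [ρ.range.Normal] (hQ : C (E ⧸ ρ.range))
    (hact : ∀ (g : E) (i : J), i ∈ S → ∃ (a : Monoid.CoprodI M), ∃ ψ ∈ T i, ∀ x : M i,
      g * ρ (of x) * g⁻¹ = ρ (a * of (ψ x) * a⁻¹)) : C E := by
  have hinj : ∀ i, Function.Injective (ρ.comp (of (M := M) (i := i))) := fun i =>
    hρ.comp (Monoid.CoprodI.of_injective i)
  refine main_all hC hF hQ (fun i => (ρ.comp (of (M := M) (i := i))).range) S
    (isFreeProd ρ hρ) ?_ ?_ ?_
  · intro i hi
    have := hfr i hi
    exact IsFreeGroup.ofMulEquiv (MonoidHom.ofInjective (hinj i))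
  · intro i hi g
    obtain ⟨a, ψ, -, h⟩ := hact g i hi
    refine ⟨i, hi, (ρ a)⁻¹, inv_mem ⟨a, rfl⟩, fun y => ?_⟩
    constructor
    · rintro ⟨x, rfl⟩
      refine ⟨ψ x, ?_⟩
      show ρ (of (ψ x)) = (ρ a)⁻¹ * (g * ρ (of x) * g⁻¹) * (ρ a)⁻¹⁻¹
      rw [h]
      simp only [map_mul, map_inv]
      group
    · rintro ⟨x, hx⟩
      refine ⟨ψ.symm x, ?_⟩
      have h1 := h (ψ.symm x)
      rw [MulEquiv.apply_symm_apply] at h1
      have hx' : ρ (of x) = (ρ a)⁻¹ * (g * y * g⁻¹) * (ρ a)⁻¹⁻¹ := hx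
      show ρ (of (ψ.symm x)) = y
      have h2 : ρ (of (ψ.symm x)) = g⁻¹ * (g * ρ (of (ψ.symm x)) * g⁻¹) * g := by group
      rw [h2, h1, map_mul, map_mul, map_inv, hx']
      group
  · intro i hi g hg
    obtain ⟨a, ψ, hψ, h⟩ := hact g i hi
    have := hn i hi
    obtain ⟨x0, hx0⟩ := exists_ne (1 : M i)
    -- `a` is in the factor
    have ha : a ∈ (of (M := M) (i := i)).range := by
      obtain ⟨y, hy⟩ : g * ρ (of x0) * g⁻¹ ∈ (ρ.comp (of (M := M) (i := i))).range :=
        (hg _).1 ⟨x0, rfl⟩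
      rw [h] at hy
      exact malnormal i a (ψ x0) y (fun h0 => hx0 (by
        have := congrArg ψ.symm h0
        rwa [MulEquiv.symm_apply_apply, map_one] at this)) (hρ hy).symm
    obtain ⟨c, rfl⟩ := ha
    let e : M i ≃* (ρ.comp (of (M := M) (i := i))).range := MonoidHom.ofInjective (hinj i)
    have he : ∀ x, ((e x : (ρ.comp (of (M := M) (i := i))).range) : E) = ρ (of x) := fun x => rfl
    obtain ⟨q, hq⟩ : ∃ q : T i, q.1 = ψ := ⟨⟨ψ, hψ⟩, rfl⟩
    refine cyc_real hC _ g hg ((SemidirectProduct.inl (φ := (T i).subtype)).comp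
      e.symm.toMonoidHom) ?_ (SemidirectProduct.inl c * SemidirectProduct.inr q) ?_ (hM i hi)
    · exact SemidirectProduct.inl_injective.comp e.symm.injective
    · intro x y hxy
      obtain ⟨x', rfl⟩ := e.surjective x
      obtain ⟨y', rfl⟩ := e.surjective y
      have h1 : y' = c * ψ x' * c⁻¹ := by
        apply hinj i
        show ρ (of y') = ρ (of (c * ψ x' * c⁻¹))
        rw [← he, hxy, he, h]
        simp only [map_mul, map_inv]
      show SemidirectProduct.inl (e.symm (e y')) = SemidirectProduct.inl c *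
        SemidirectProduct.inr q * SemidirectProduct.inl (e.symm (e x')) *
        (SemidirectProduct.inl c * SemidirectProduct.inr q)⁻¹
      rw [e.symm_apply_apply, e.symm_apply_apply, h1]
      have h2 : SemidirectProduct.inr (φ := (T i).subtype) q * SemidirectProduct.inl x' *
          (SemidirectProduct.inr q)⁻¹ = SemidirectProduct.inl (ψ x') := by
        rw [← map_inv, ← SemidirectProduct.inl_aut, ← hq]
        rfl
      have h3 : SemidirectProduct.inl (φ := (T i).subtype) c *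
        SemidirectProduct.inr q * SemidirectProduct.inl x' *
        (SemidirectProduct.inl c * SemidirectProduct.inr q)⁻¹ = SemidirectProduct.inl c *
        (SemidirectProduct.inr q * SemidirectProduct.inl x' *
          (SemidirectProduct.inr q)⁻¹) * (SemidirectProduct.inl c)⁻¹ := by group
      rw [h3, h2, map_mul, map_mul, map_inv]

/-- subgroups of automorphisms -/
theorem holT_le (hC : ClosedE C) {G : Type} [Group G] {S T : Subgroup (MulAut G)} (h : S ≤ T)
    (hT : C (HolT T)) : C (HolT S) := by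
  let f : HolT S →* HolT T :=
    { toFun := fun x => ⟨x.left, ⟨x.right.1, h x.right.2⟩⟩
      map_one' := rfl
      map_mul' := fun x y => rfl }
  refine hC.base.of_injective _ _ f ?_ hT
  intro x y hxy
  apply SemidirectProduct.ext
  · exact congrArg (fun t => t.left) hxy
  · apply Subtype.ext
    exact congrArg (fun t => t.right.1) hxy

theorem holT_top (hC : ClosedE C) {G : Type} [Group G] (h : C (Hol G)) :
    C (HolT (⊤ : Subgroup (MulAut G))) := by
  let f : HolT (⊤ : Subgroup (MulAut G)) →* Hol G :=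
    { toFun := fun x => ⟨x.left, x.right.1⟩
      map_one' := rfl
      map_mul' := fun x y => rfl }
  refine hC.base.of_injective _ _ f ?_ h
  intro x y hxy
  apply SemidirectProduct.ext
  · exact congrArg (fun t => t.left) hxy
  · apply Subtype.ext
    exact congrArg (fun t => t.right) hxy

theorem holT_fi (hC : ClosedE C) {G : Type} [Group G] {S T : Subgroup (MulAut G)}
    (hf : (S.subgroupOf T).FiniteIndex) (hS : C (HolT S)) : C (HolT T) := by
  let P : Subgroup (HolT T) := (S.subgroupOf T).comap SemidirectProduct.rightHom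
  refine hC.base.finiteIndex _ P ⟨?_⟩ ?_
  · rw [Subgroup.index_comap_of_surjective _ SemidirectProduct.rightHom_surjective]
    exact hf.index_ne_zero
  let f : P →* HolT S :=
    { toFun := fun x => ⟨x.1.left, ⟨x.1.right.1, x.2⟩⟩
      map_one' := rfl
      map_mul' := fun x y => rfl }
  refine hC.base.of_injective _ _ f ?_ hS
  intro x y hxy
  apply Subtype.ext
  apply SemidirectProduct.ext
  · exact congrArg (fun t => t.left) hxy
  · apply Subtype.ext
    exact congrArg (fun t => t.right.1) hxy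

theorem holT_right (hC : ClosedE C) {G : Type} [Group G] {T : Subgroup (MulAut G)}
    (h : C (HolT T)) : C T :=
  hC.base.of_injective _ _ (SemidirectProduct.inr (φ := T.subtype))
    SemidirectProduct.inr_injective h

/-- the automorphisms of `E` which restrict to members of `T` on the image of `α` -/
def Ext {A E : Type} [Group A] [Group E] (α : A →* E) (T : Subgroup (MulAut A)) :
    Subgroup (MulAut E) where
  carrier := {φ | ∃ τ ∈ T, ∀ a, φ (α a) = α (τ a)}
  one_mem' := ⟨1, T.one_mem, fun a => rfl⟩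
  mul_mem' := by
    rintro φ χ ⟨σ, hσ, h1⟩ ⟨τ, hτ, h2⟩
    exact ⟨σ * τ, T.mul_mem hσ hτ, fun a => by
      rw [MulAut.mul_apply, MulAut.mul_apply, h2, h1]⟩
  inv_mem' := by
    rintro φ ⟨τ, hτ, h⟩
    refine ⟨τ⁻¹, T.inv_mem hτ, fun a => ?_⟩
    have h1 := h (τ⁻¹ a)
    rw [MulAut.apply_inv_self] at h1
    rw [← h1, MulAut.inv_apply_self]

section gen

variable {ι : Type} {M : ι → Type} [∀ i, Group (M i)]

/-- an automorphism maps an indecomposable factor into a conjugate of a factor -/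
theorem into' {i : ι} (hI : Ind (M i)) (φ : MulAut (Monoid.CoprodI M)) :
    ∃ (j : ι) (x : Monoid.CoprodI M), ∀ g : M i, ∃ m : M j, φ (of g) = x * of m * x⁻¹ := by
  obtain ⟨j, x, h⟩ := kurosh (φ.toMonoidHom.comp (of (M := M) (i := i)))
    (φ.injective.comp (Monoid.CoprodI.of_injective i)) hI.1 hI.2.1 hI.2.2
  refine ⟨j, x, fun g => ?_⟩
  obtain ⟨m, hm⟩ := h g
  refine ⟨m, ?_⟩
  rw [hm]
  show φ (of g) = x * (x⁻¹ * φ (of g) * x) * x⁻¹
  group

/-- ... and not into a conjugate of a factor which is preserved -/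
theorem onto' {o : ι} {T : Subgroup (MulAut (M o))} (hI : ∀ i, i ≠ o → Ind (M i))
    {φ : MulAut (Monoid.CoprodI M)} (hφ : φ ∈ Ext (of (M := M) (i := o)) T) {i : ι} (hi : i ≠ o) :
    ∃ (j : ι) (x : Monoid.CoprodI M), (∀ g : M i, ∃ m : M j, φ (of g) = x * of m * x⁻¹) ∧
      ∀ m : M j, ∃ g : M i, φ (of g) = x * of m * x⁻¹ := by
  obtain ⟨j, x, h⟩ := into' (hI i hi) φ
  obtain ⟨g0, hg0⟩ := (hI i hi).ne
  have hj : j ≠ o := by
    rintro rfl
    obtain ⟨τ, -, hτ⟩ := inv_mem hφ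
    obtain ⟨m, hm⟩ := h g0
    have h1 : of g0 = φ⁻¹ x * of (τ m) * (φ⁻¹ x)⁻¹ := by
      rw [← hτ, ← map_inv, ← map_mul, ← map_mul, ← hm]
      exact (MulAut.inv_apply_self _ φ (of g0)).symm
    exact hi (factor_eq g0 hg0 _ _ h1).symm
  obtain ⟨k, y, h'⟩ := into' (hI j hj) φ⁻¹
  refine ⟨j, x, h, ?_⟩
  obtain ⟨z, hz⟩ : ∃ z, z = φ⁻¹ x * y := ⟨_, rfl⟩
  have h1 : ∀ m : M j, ∃ n : M k, φ⁻¹ (x * of m * x⁻¹) = z * of n * z⁻¹ := by
    intro m
    obtain ⟨n, hn⟩ := h' m
    refine ⟨n, ?_⟩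
    rw [map_mul, map_mul, map_inv, hn, hz]
    group
  have h2 : ∀ g : M i, ∃ n : M k, of g = z * of n * z⁻¹ := by
    intro g
    obtain ⟨m, hm⟩ := h g
    obtain ⟨n, hn⟩ := h1 m
    refine ⟨n, ?_⟩
    rw [← hn, ← hm]
    exact (MulEquiv.symm_apply_apply φ (of g)).symm
  obtain ⟨n, hn⟩ := h2 g0
  have hk : k = i := factor_eq g0 hg0 n z hn
  subst hk
  have h3 : z ∈ (of (M := M) (i := k)).range := by
    have hn' : n ≠ 1 := by
      rintro rfl
      apply hg0
      apply Monoid.CoprodI.of_injective k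
      rw [hn]
      simp
    exact malnormal k z n g0 hn' hn.symm
  obtain ⟨c, hc⟩ := h3
  intro m
  obtain ⟨n, hn⟩ := h1 m
  refine ⟨c * n * c⁻¹, ?_⟩
  have h4 : (of (c * n * c⁻¹) : Monoid.CoprodI M) = z * of n * z⁻¹ := by
    rw [map_mul, map_mul, map_inv, hc]
  rw [h4, ← hn]
  exact MulEquiv.apply_symm_apply φ _

theorem same' {φ χ : MulAut (Monoid.CoprodI M)} {i j : ι} {x y : Monoid.CoprodI M}
    (h1 : ∀ g : M i, ∃ m : M j, φ (of g) = x * of m * x⁻¹)
    (h3 : ∀ g : M i, ∃ m : M j, χ (of g) = y * of m * y⁻¹)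
    (h2 : ∀ m : M j, ∃ g : M i, φ (of g) = x * of m * x⁻¹)
    (h4 : ∀ m : M j, ∃ g : M i, χ (of g) = y * of m * y⁻¹) : Sym M (χ⁻¹ * φ) i := by
  have h6 : ∀ m : M j, ∃ g : M i, χ⁻¹ (x * of m * x⁻¹) =
      (χ⁻¹ (x * y⁻¹)) * of g * (χ⁻¹ (x * y⁻¹))⁻¹ := by
    intro m
    obtain ⟨g, hg⟩ := h4 m
    refine ⟨g, ?_⟩
    have h7 : of g = χ⁻¹ (y * of m * y⁻¹) := by
      rw [← hg]
      exact (MulEquiv.symm_apply_apply χ (of g)).symm
    rw [h7, ← map_inv, ← map_mul, ← map_mul]
    congr 1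
    group
  refine ⟨χ⁻¹ (x * y⁻¹), ?_⟩
  ext z
  constructor
  · rintro ⟨_, ⟨g, rfl⟩, rfl⟩
    obtain ⟨m, hm⟩ := h1 g
    obtain ⟨g', hg'⟩ := h6 m
    refine ⟨of g', ⟨g', rfl⟩, ?_⟩
    show χ⁻¹ (x * y⁻¹) * of g' * (χ⁻¹ (x * y⁻¹))⁻¹ = χ⁻¹ (φ (of g))
    rw [hm, hg']
  · rintro ⟨_, ⟨g, rfl⟩, rfl⟩
    obtain ⟨m, hm⟩ := h3 g
    obtain ⟨g', hg'⟩ := h2 m
    refine ⟨of g', ⟨g', rfl⟩, ?_⟩
    show χ⁻¹ (φ (of g')) = χ⁻¹ (x * y⁻¹) * of g * (χ⁻¹ (x * y⁻¹))⁻¹
    have h7 : of g = χ⁻¹ (y * of m * y⁻¹) := by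
      rw [← hm]
      exact (MulEquiv.symm_apply_apply χ (of g)).symm
    rw [hg', h7, ← map_inv, ← map_mul, ← map_mul]
    congr 1
    group

theorem sym_of_ext {o : ι} {T : Subgroup (MulAut (M o))} {φ : MulAut (Monoid.CoprodI M)}
    (hφ : φ ∈ Ext (of (M := M) (i := o)) T) : Sym M φ o := by
  obtain ⟨τ, -, h⟩ := hφ
  exact sym_of (ψ := τ) (g := 1) fun x => by rw [h]; simp

open scoped Classical in
/-- the permutation of the factors -/
noncomputable def permE {o : ι} {T : Subgroup (MulAut (M o))} (hI : ∀ i, i ≠ o → Ind (M i))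
    (φ : Ext (of (M := M) (i := o)) T) (i : ι) : ι :=
  if hi : i = o then o else (onto' hI φ.2 hi).choose

theorem mem_of_permE {o : ι} {T : Subgroup (MulAut (M o))} (hI : ∀ i, i ≠ o → Ind (M i))
    (φ χ : Ext (of (M := M) (i := o)) T) (h : permE hI φ = permE hI χ) :
    (χ⁻¹ * φ).1 ∈ PAut M := by
  intro i
  by_cases hi : i = o
  · subst hi
    exact sym_of_ext (χ⁻¹ * φ).2
  · obtain ⟨x, h1, h2⟩ := (onto' hI φ.2 hi).choose_spec
    obtain ⟨y, h3, h4⟩ := (onto' hI χ.2 hi).choose_spec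
    have h5 : (onto' hI φ.2 hi).choose = (onto' hI χ.2 hi).choose := by
      have := congrFun h i
      unfold permE at this
      rwa [dif_neg hi, dif_neg hi] at this
    generalize (onto' hI χ.2 hi).choose = k at h3 h4 h5
    subst h5
    exact same' h1 h3 h2 h4

theorem fiE [Finite ι] {o : ι} {T : Subgroup (MulAut (M o))} (hI : ∀ i, i ≠ o → Ind (M i)) :
    ((PAut M ⊓ Ext (of (M := M) (i := o)) T).subgroupOf
      (Ext (of (M := M) (i := o)) T)).FiniteIndex := by
  let P := (PAut M ⊓ Ext (of (M := M) (i := o)) T).subgroupOf (Ext (of (M := M) (i := o)) T)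
  have hinj : Function.Injective
      (fun q : (Ext (of (M := M) (i := o)) T) ⧸ P => permE hI q.out) := by
    intro q r hqr
    have h1 := mem_of_permE hI _ _ hqr
    rw [← QuotientGroup.out_eq' q, ← QuotientGroup.out_eq' r]
    exact (QuotientGroup.eq.2 (show _ ∈ P from ⟨h1, (r.out⁻¹ * q.out).2⟩)).symm
  have : Finite ((Ext (of (M := M) (i := o)) T) ⧸ P) := Finite.of_injective _ hinj
  exact Subgroup.finiteIndex_of_finite_quotient

end gen

end Pool.Agent.U166.OF
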