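import Pool.Agent.U166.OF.StA

/-!
# Automorphisms of a free product of three groups which preserve a factor
-/

set_option autoImplicit false

namespace Pool.Agent.U166.OF

open Monoid.CoprodI Pool.Agent.N77.OF Pool.Agent.Y110.FJ Pool.Agent.R684.FP
open Pool.Agent.R941.FJ (C_equiv C_le C_cyc mem_sup_normal)
open Pool.Agent.Y462.SS (Closed)

theorem aut_conj {G : Type} [Group G] (φ : MulAut G) (g : G) :
    φ * MulAut.conj g * φ⁻¹ = MulAut.conj (φ g) := by
  ext x
  simp

section gen

variable {ι : Type} [DecidableEq ι] {M : ι → Type} [∀ i, Group (M i)]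

theorem fac_conj (ψ : ∀ i, MulAut (M i)) (g : Monoid.CoprodI M) :
    Fac ψ * MulAut.conj g * (Fac ψ)⁻¹ = MulAut.conj (Fac ψ g) := aut_conj _ _

/-- the other factors are conjugated by an element of the factor `M o` -/
noncomputable def DD (o : ι) : M o →* MulAut (Monoid.CoprodI M) where
  toFun a := (MulAut.conj (of a))⁻¹ * Fac (Pi.mulSingle o (MulAut.conj a))
  map_one' := by simp
  map_mul' a b := by
    have h1 := fac_conj (M := M) (Pi.mulSingle o (MulAut.conj a)) (of b)
    rw [Fac_of, Pi.mulSingle_eq_same, MulAut.conj_apply] at h1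
    have h2 : Fac (M := M) (Pi.mulSingle o (MulAut.conj a)) * (MulAut.conj (of b))⁻¹ =
        (MulAut.conj (of (a * b * a⁻¹)))⁻¹ * Fac (Pi.mulSingle o (MulAut.conj a)) := by
      rw [← h1]; group
    have h3 : (MulAut.conj (of a))⁻¹ * Fac (M := M) (Pi.mulSingle o (MulAut.conj a)) *
        ((MulAut.conj (of b))⁻¹ * Fac (Pi.mulSingle o (MulAut.conj b))) =
        (MulAut.conj (of a))⁻¹ * (Fac (M := M) (Pi.mulSingle o (MulAut.conj a)) *
        (MulAut.conj (of b))⁻¹) * Fac (Pi.mulSingle o (MulAut.conj b)) := by group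
    have h5 : (MulAut.conj (of (M := M) (a * b)))⁻¹ =
        (MulAut.conj (of a))⁻¹ * (MulAut.conj (of (a * b * a⁻¹)))⁻¹ := by
      rw [← mul_inv_rev, ← map_mul, ← map_mul]
      congr 3
      group
    rw [h3, h2, map_mul MulAut.conj a b, Pi.mulSingle_mul, map_mul Fac, h5]
    group

theorem DD_apply (o : ι) (a : M o) : DD (M := M) o a =
    (MulAut.conj (of a))⁻¹ * Fac (Pi.mulSingle o (MulAut.conj a)) := rfl

theorem DD_fix (o : ι) (a x : M o) : DD (M := M) o a (of x) = of x := by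
  rw [DD_apply, MulAut.mul_apply, Fac_of, Pi.mulSingle_eq_same, ← map_inv, MulAut.conj_apply,
    MulAut.conj_apply]
  simp only [map_mul, map_inv]
  group

theorem DD_ne {o j : ι} (h : j ≠ o) (a : M o) (x : M j) :
    DD (M := M) o a (of x) = (of a)⁻¹ * of x * of a := by
  rw [DD_apply, MulAut.mul_apply, Fac_of, Pi.mulSingle_eq_of_ne h, ← map_inv, MulAut.conj_apply]
  simp

theorem fac_DD (ψ : ∀ i, MulAut (M i)) (o : ι) (a : M o) :
    Fac ψ * DD o a * (Fac ψ)⁻¹ = DD o (ψ o a) := by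
  have h1 := fac_conj (M := M) ψ (of a)
  rw [Fac_of] at h1
  have h2 : ψ * Pi.mulSingle o (MulAut.conj a) * ψ⁻¹ =
      Pi.mulSingle (M := fun i => MulAut (M i)) o (MulAut.conj (ψ o a)) := by
    funext j
    by_cases h : j = o
    · subst h
      rw [Pi.mul_apply, Pi.mul_apply, Pi.mulSingle_eq_same, Pi.mulSingle_eq_same, Pi.inv_apply,
        aut_conj]
    · rw [Pi.mul_apply, Pi.mul_apply, Pi.mulSingle_eq_of_ne h, Pi.mulSingle_eq_of_ne h,
        Pi.inv_apply]
      group
  rw [DD_apply, DD_apply, ← h2, ← h1]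
  simp only [map_mul, map_inv]
  group

end gen

section three

variable {M : Fin 3 → Type} [∀ i, Group (M i)]

/-- `c` in the last factor conjugates the last two factors -/
noncomputable def lastHom : M 2 →* MulAut (Monoid.CoprodI M) where
  toFun c := MulAut.conj (of c) * W (of c)
  map_one' := by simp
  map_mul' c d := by
    have h1 := aut_conj (W (M := M) (of c)) (of d)
    have h2 : W (M := M) (of c) (of d) = of d := by
      rw [W_of, pc_apply]
      exact pcHom_of_ne 2 c (by decide) d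
    rw [h2] at h1
    have h3 : MulAut.conj (of c) * W (M := M) (of c) * (MulAut.conj (of d) * W (of d)) =
        MulAut.conj (of c) * (W (M := M) (of c) * MulAut.conj (of d) * (W (of c))⁻¹) *
          (W (of c) * W (of d)) := by group
    rw [h3, h1, map_mul of, map_mul MulAut.conj, map_mul W]

/-- the free product as a group of automorphisms which fix the first factor -/
noncomputable def VV : Monoid.CoprodI M →* MulAut (Monoid.CoprodI M) :=
  Monoid.CoprodI.lift fun
    | 0 => pc 0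
    | 1 => pc 1
    | 2 => lastHom

theorem VV_of0 (m : M 0) : VV (of m) = W (of m) := by
  rw [W_of]; simp [VV]
theorem VV_of1 (m : M 1) : VV (of m) = W (of m) := by
  rw [W_of]; simp [VV]
theorem VV_of2 (m : M 2) : VV (of m) = MulAut.conj (of m) * W (of m) := by
  simp only [VV, lift_of]; rfl

theorem VV_mk (w : Monoid.CoprodI M) : ∃ k, VV w = MulAut.conj k * W w := by
  induction w using Monoid.CoprodI.induction_on with
  | one => exact ⟨1, by simp⟩
  | of i m =>
    match i with
    | 0 => exact ⟨1, by rw [VV_of0]; simp⟩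
    | 1 => exact ⟨1, by rw [VV_of1]; simp⟩
    | 2 => exact ⟨of m, VV_of2 m⟩
  | mul x y hx hy =>
    obtain ⟨k, hk⟩ := hx
    obtain ⟨l, hl⟩ := hy
    refine ⟨k * W x l, ?_⟩
    rw [map_mul, hk, hl, map_mul, map_mul, ← aut_conj]
    group

theorem VV_fix (w : Monoid.CoprodI M) (a : M 0) : VV w (of a) = of a := by
  induction w using Monoid.CoprodI.induction_on with
  | one => simp
  | of i m =>
    match i with
    | 0 =>
      rw [VV_of0, W_of, pc_apply]
      exact pcHom_of_ne 0 m (by decide) a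
    | 1 =>
      rw [VV_of1, W_of, pc_apply]
      exact pcHom_of_ne 1 m (by decide) a
    | 2 =>
      have h : pcHom (M := M) 2 m (of a) = (of m)⁻¹ * of a * of m := pcHom_of 2 m a
      rw [VV_of2, MulAut.mul_apply, W_of, pc_apply, h, MulAut.conj_apply]
      group
  | mul x y hx hy => rw [map_mul, MulAut.mul_apply, hy, hx]

theorem fac_VV (ψ : ∀ i, MulAut (M i)) (w : Monoid.CoprodI M) :
    Fac ψ * VV w * (Fac ψ)⁻¹ = VV (Fac ψ w) := by
  have : (MulAut.conj (Fac ψ)).toMonoidHom.comp VV = (VV (M := M)).comp (Fac ψ).toMonoidHom := by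
    apply Monoid.CoprodI.ext_hom
    intro i
    ext m : 1
    show Fac ψ * VV (of m) * (Fac ψ)⁻¹ = VV (Fac ψ (of m))
    have h1 := fac_W ψ (of m)
    rw [Fac_of] at h1 ⊢
    match i with
    | 0 => rw [VV_of0, VV_of0, h1]
    | 1 => rw [VV_of1, VV_of1, h1]
    | 2 =>
      have h2 := fac_conj (M := M) ψ (of m)
      rw [Fac_of] at h2
      rw [VV_of2, VV_of2, ← h1, ← h2]
      group
  exact DFunLike.congr_fun this w

theorem DD_VV (a : M 0) (w : Monoid.CoprodI M) :
    DD 0 a * VV w * (DD 0 a)⁻¹ = VV (Fac (Pi.mulSingle 0 (MulAut.conj a)) w) := by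
  rw [← fac_VV, DD_apply]
  obtain ⟨F, hF⟩ : ∃ F, F = Fac (M := M) (Pi.mulSingle 0 (MulAut.conj a)) := ⟨_, rfl⟩
  obtain ⟨w', hw'⟩ : ∃ w', w' = Fac (M := M) (Pi.mulSingle 0 (MulAut.conj a)) w := ⟨_, rfl⟩
  have h1 : F * VV w * F⁻¹ = VV w' := by rw [hF, hw', fac_VV]
  rw [← hF, h1]
  have h2 := aut_conj (VV w') (of a)
  rw [VV_fix] at h2
  have h3 : (MulAut.conj (of a))⁻¹ * F * VV w * ((MulAut.conj (of a))⁻¹ * F)⁻¹ =
      (MulAut.conj (of a))⁻¹ * (F * VV w * F⁻¹) * MulAut.conj (of a) := by group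
  rw [h3, h1]
  have h4 : VV w' * MulAut.conj (of a) = MulAut.conj (of a) * VV w' :=
    mul_inv_eq_iff_eq_mul.1 h2
  rw [mul_assoc, h4]
  group

variable (T : Subgroup (MulAut (M 0)))

/-- the group of the automorphisms of the factors, the first factor acting by conjugation -/
abbrev QQ : Type := HolT T × (MulAut (M 1) × MulAut (M 2))

/-- the family of automorphisms of the factors -/
def fam : QQ T →* ∀ i, MulAut (M i) where
  toFun q := fun
    | 0 => q.1.right.1
    | 1 => q.2.1
    | 2 => q.2.2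
  map_one' := by
    funext i
    match i with
    | 0 => rfl
    | 1 => rfl
    | 2 => rfl
  map_mul' q r := by
    funext i
    match i with
    | 0 => rfl
    | 1 => rfl
    | 2 => rfl

/-- the homomorphism to the group of automorphisms -/
noncomputable def Th : QQ T →* MulAut (Monoid.CoprodI M) where
  toFun q := DD 0 q.1.left * Fac (fam T q)
  map_one' := by
    rw [map_one, map_one]
    have : ((1 : QQ T).1.left) = 1 := rfl
    rw [this, map_one, one_mul]
  map_mul' q r := by
    have h1 := fac_DD (M := M) (fam T q) 0 r.1.left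
    have h2 : (q * r).1.left = q.1.left * (fam T q 0 r.1.left) := rfl
    rw [h2, map_mul, map_mul, map_mul, ← h1]
    group

theorem Th_apply (q : QQ T) : Th T q = DD 0 q.1.left * Fac (fam T q) := rfl

/-- the induced automorphisms of the kernel -/
noncomputable def eff (q : QQ T) : ∀ i, MulAut (M i) :=
  Pi.mulSingle 0 (MulAut.conj q.1.left) * fam T q

theorem Th_VV (q : QQ T) (w : Monoid.CoprodI M) :
    Th T q * VV w * (Th T q)⁻¹ = VV (Fac (eff T q) w) := by
  have h : Th T q * VV w * (Th T q)⁻¹ =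
      DD 0 q.1.left * (Fac (fam T q) * VV w * (Fac (fam T q))⁻¹) * (DD 0 q.1.left)⁻¹ := by
    rw [Th_apply]; group
  rw [h, fac_VV, DD_VV, eff, map_mul, MulAut.mul_apply]

theorem eff0 (q : QQ T) (x : M 0) : eff T q 0 x = q.1.left * q.1.right.1 x * q.1.left⁻¹ := by
  unfold eff
  rw [Pi.mul_apply, Pi.mulSingle_eq_same, MulAut.mul_apply, MulAut.conj_apply]
  rfl

/-- the automorphisms which map the factors onto conjugates, and restrict to `T` -/
abbrev S3 : Subgroup (MulAut (Monoid.CoprodI M)) := PAut M ⊓ Ext (of (M := M) (i := 0)) T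

theorem VV_mem (w : Monoid.CoprodI M) : VV w ∈ S3 T := by
  refine ⟨?_, 1, T.one_mem, fun a => VV_fix w a⟩
  obtain ⟨k, hk⟩ := VV_mk w
  rw [hk]
  exact mul_mem (conj_mem k) (W_mem w)

theorem Th_mem (q : QQ T) : Th T q ∈ S3 T := by
  refine ⟨?_, q.1.right.1, q.1.right.2, fun a => ?_⟩
  · show Th T q ∈ PAut M
    rw [Th_apply, DD_apply]
    exact mul_mem (mul_mem (inv_mem (conj_mem _)) (fac_mem _)) (fac_mem _)
  · rw [Th_apply, MulAut.mul_apply, Fac_of]
    exact DD_fix 0 _ _

theorem dec3 (hn : ∀ i, Nontrivial (M i)) {φ : MulAut (Monoid.CoprodI M)} (hφ : φ ∈ S3 T) :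
    ∃ (w : Monoid.CoprodI M) (q : QQ T), φ = VV w * Th T q := by
  obtain ⟨hp, τ, hτ, h⟩ := hφ
  obtain ⟨u, ψ, hr⟩ := rep_of_mem hp
  obtain ⟨g, w, χ, h1⟩ := gen hr
  obtain ⟨k, hk⟩ := VV_mk w
  obtain ⟨g', hg'⟩ : ∃ g', g' = g * k⁻¹ := ⟨_, rfl⟩
  have h2 : φ = MulAut.conj g' * (VV w * Fac χ) := by
    rw [h1, hg', hk, map_mul, map_inv]; group
  have h3 : ∀ a : M 0, g' * of (χ 0 a) * g'⁻¹ = of (τ a) := by
    intro a
    rw [← h, h2, MulAut.mul_apply, MulAut.mul_apply, Fac_of, VV_fix, MulAut.conj_apply]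
  obtain ⟨x, hx⟩ := exists_ne (1 : M 0)
  have h4 : g' ∈ (of (M := M) (i := 0)).range :=
    malnormal 0 g' (χ 0 x) _ (fun h0 => hx (by
      have := congrArg (χ 0).symm h0
      rwa [MulEquiv.symm_apply_apply, map_one] at this)) (h3 x)
  obtain ⟨c, rfl⟩ := h4
  have h5 : τ = MulAut.conj c * χ 0 := by
    ext a
    apply Monoid.CoprodI.of_injective (M := M) 0
    rw [← h3, MulAut.mul_apply, MulAut.conj_apply]
    simp only [map_mul, map_inv]
  let q : QQ T := (⟨c⁻¹, ⟨τ, hτ⟩⟩, (χ 1, χ 2))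
  refine ⟨w, q, ?_⟩
  have h6 : eff T q = χ := by
    funext i
    match i with
    | 0 =>
      ext a
      rw [eff0]
      show c⁻¹ * τ a * c⁻¹⁻¹ = χ 0 a
      rw [h5, MulAut.mul_apply, MulAut.conj_apply]
      group
    | 1 =>
      unfold eff
      rw [Pi.mul_apply, Pi.mulSingle_eq_of_ne (by decide)]
      exact one_mul _
    | 2 =>
      unfold eff
      rw [Pi.mul_apply, Pi.mulSingle_eq_of_ne (by decide)]
      exact one_mul _
  have h7 : Th T q = MulAut.conj (of c) * Fac χ := by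
    rw [Th_apply, DD_apply, mul_assoc, ← map_mul]
    have : Pi.mulSingle 0 (MulAut.conj q.1.left) * fam T q = χ := h6
    rw [this]
    show (MulAut.conj (of c⁻¹))⁻¹ * Fac χ = _
    rw [map_inv, map_inv, inv_inv]
  have h8 := aut_conj (VV w) (of c)
  rw [VV_fix] at h8
  have h9 : VV w * MulAut.conj (of c) = MulAut.conj (of c) * VV w := mul_inv_eq_iff_eq_mul.1 h8
  rw [h2, h7, ← mul_assoc, ← h9, mul_assoc]

theorem inj3 (hn : ∀ i, Nontrivial (M i)) {w : Monoid.CoprodI M} {q : QQ T}
    (h : VV w * Th T q = 1) : w = 1 ∧ q = 1 := by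
  obtain ⟨k, hk⟩ := VV_mk w
  have h1 : Th T q = (MulAut.conj (of q.1.left))⁻¹ * Fac (eff T q) := by
    rw [Th_apply, DD_apply, mul_assoc, ← map_mul]
    rfl
  have h2 := aut_conj (W w) (of q.1.left)
  have h3 : W w * Fac (eff T q) = MulAut.conj (k * (W w (of q.1.left))⁻¹)⁻¹ := by
    rw [map_inv, map_mul, map_inv, ← h2]
    rw [hk, h1] at h
    have h4 : MulAut.conj k * (W w * MulAut.conj (of q.1.left) * (W w)⁻¹)⁻¹ *
        (W w * Fac (eff T q)) = 1 := by
      rw [← h]; group
    exact (inv_eq_of_mul_eq_one_right h4).symm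
  obtain ⟨hw, he⟩ := inj hn w _ _ h3
  refine ⟨hw, ?_⟩
  rw [hw, map_one, one_mul] at h
  have hf1 : fam T q 1 = 1 := by
    have h5 := congrFun he 1
    unfold eff at h5
    rw [Pi.mul_apply, Pi.mulSingle_eq_of_ne (by decide), one_mul] at h5
    exact h5
  have hf2 : fam T q 2 = 1 := by
    have h5 := congrFun he 2
    unfold eff at h5
    rw [Pi.mul_apply, Pi.mulSingle_eq_of_ne (by decide), one_mul] at h5
    exact h5
  have ha : q.1.left = 1 := by
    obtain ⟨y, hy⟩ := exists_ne (1 : M 1)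
    have h5 : Th T q (of y) = of y := by rw [h]; rfl
    rw [Th_apply, MulAut.mul_apply, Fac_of, hf1, MulAut.one_apply, DD_ne (by decide)] at h5
    have h6 : (of q.1.left)⁻¹ ∈ (of (M := M) (i := 1)).range :=
      malnormal 1 _ y y hy (by rw [inv_inv]; exact h5)
    obtain ⟨b, hb⟩ := h6
    have hB := BASE.main (Fin 3) M
    have h7 : dir 0 (of (M := M) q.1.left⁻¹) = q.1.left⁻¹ := RGT.dir_of hB _
    rw [map_inv, ← hb, RGT.dir_of_ne hB (by decide)] at h7
    exact inv_eq_one.1 h7.symm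
  have hf0 : fam T q 0 = 1 := by
    have h5 := congrFun he 0
    unfold eff at h5
    rw [Pi.mul_apply, Pi.mulSingle_eq_same, ha, map_one, one_mul] at h5
    exact h5
  refine Prod.ext (SemidirectProduct.ext ha (Subtype.ext hf0)) (Prod.ext hf1 hf2)

end three

end Pool.Agent.U166.OF
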