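import Pool.Agent.U166.OF.StB

/-!
# Stabilizers of a factor with two complementary factors in the Farrell–Jones class
-/

set_option autoImplicit false

namespace Pool.Agent.U166.OF

open Monoid.CoprodI Pool.Agent.N77.OF Pool.Agent.Y110.FJ Pool.Agent.R684.FP
open Pool.Agent.R941.FJ (C_equiv C_le C_cyc mem_sup_normal)
open Pool.Agent.Y462.SS (Closed)

variable {C : ∀ (G : Type) [Group G], Prop}

section gen

variable {ι : Type} [DecidableEq ι] {M : ι → Type} [∀ i, Group (M i)]

/-- the holomorph of a group of automorphisms which map the factors onto conjugates -/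
theorem C_holT (hC : ClosedE C) (hF : FbC C) (S : Set ι) (T : ∀ i, Subgroup (MulAut (M i)))
    (hM : ∀ i ∈ S, C (HolT (T i))) (hn : ∀ i ∈ S, Nontrivial (M i))
    (hfr : ∀ i, i ∉ S → IsFreeGroup (M i)) (P : Subgroup (MulAut (Monoid.CoprodI M)))
    (hP : ∀ φ ∈ P, ∀ i ∈ S, ∃ (a : Monoid.CoprodI M), ∃ ψ ∈ T i, ∀ x : M i,
      φ (of x) = a * of (ψ x) * a⁻¹) (hCP : C P) : C (HolT P) := by
  let j : Monoid.CoprodI M →* HolT P := SemidirectProduct.inl
  have hk : j.range = (SemidirectProduct.rightHom (φ := P.subtype)).ker :=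
    SemidirectProduct.range_inl_eq_ker_rightHom
  have hN : j.range.Normal := by rw [hk]; infer_instance
  refine ext_rel hC hF S T hM hn hfr j SemidirectProduct.inl_injective ?_ ?_
  · refine C_equiv hC.base (QuotientGroup.quotientMulEquivOfEq hk) ?_
    exact hC.base.of_injective _ _ (QuotientGroup.kerLift _) (QuotientGroup.kerLift_injective _) hCP
  · intro g i hi
    obtain ⟨u, ψ, hψ, h⟩ := hP _ g.right.2 i hi
    refine ⟨g.left * u, ψ, hψ, fun x => ?_⟩
    have e : g = SemidirectProduct.inl g.left * SemidirectProduct.inr g.right := by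
      rw [SemidirectProduct.inl_left_mul_inr_right]
    have e2 : g * j (of x) * g⁻¹ = SemidirectProduct.inl g.left *
        (SemidirectProduct.inr g.right * SemidirectProduct.inl (of x) *
          SemidirectProduct.inr g.right⁻¹) * (SemidirectProduct.inl g.left)⁻¹ := by
      conv_lhs => rw [e]
      rw [map_inv]
      show _ * SemidirectProduct.inl (of x) * _ = _
      group
    rw [e2, ← SemidirectProduct.inl_aut]
    show _ = SemidirectProduct.inl (g.left * u * of (ψ x) * (g.left * u)⁻¹)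
    rw [← map_inv, ← map_mul, ← map_mul]
    congr 1
    show g.left * (g.right.1 (of x)) * g.left⁻¹ = _
    rw [h x]
    group

end gen

section three

variable {M : Fin 3 → Type} [∀ i, Group (M i)] (T : Subgroup (MulAut (M 0)))

/-- the groups of automorphisms of the factors -/
def TT : ∀ i : Fin 3, Subgroup (MulAut (M i))
  | 0 => T
  | 1 => ⊤
  | 2 => ⊤

theorem C_TT (hC : ClosedE C) (h0 : C (HolT T)) (h1 : C (Hol (M 1))) (h2 : C (Hol (M 2)))
    (i : Fin 3) : C (HolT (TT T i)) := by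
  match i with
  | 0 => exact h0
  | 1 => exact holT_top hC h1
  | 2 => exact holT_top hC h2

/-- the free product in the group of automorphisms -/
noncomputable def rhoS : Monoid.CoprodI M →* S3 T :=
  (VV (M := M)).codRestrict (S3 T) (VV_mem T)

/-- the automorphisms of the factors -/
noncomputable def foS : QQ T →* S3 T := (Th T).codRestrict (S3 T) (Th_mem T)

theorem decS (hn : ∀ i, Nontrivial (M i)) (x : S3 T) :
    ∃ (w : Monoid.CoprodI M) (q : QQ T), x = rhoS T w * foS T q := by
  obtain ⟨w, q, h⟩ := dec3 T hn x.2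
  exact ⟨w, q, Subtype.ext h⟩

theorem injS (hn : ∀ i, Nontrivial (M i)) {w : Monoid.CoprodI M} {q : QQ T}
    (h : rhoS T w * foS T q = 1) : w = 1 ∧ q = 1 :=
  inj3 T hn (congrArg Subtype.val h)

theorem foS_rhoS (q : QQ T) (w : Monoid.CoprodI M) :
    foS T q * rhoS T w * (foS T q)⁻¹ = rhoS T (Fac (eff T q) w) :=
  Subtype.ext (Th_VV T q w)

theorem rhoS_normal (hn : ∀ i, Nontrivial (M i)) : (rhoS T).range.Normal := by
  refine ⟨?_⟩
  rintro _ ⟨v, rfl⟩ g
  obtain ⟨w, q, rfl⟩ := decS T hn g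
  refine ⟨w * Fac (eff T q) v * w⁻¹, ?_⟩
  have e : rhoS T w * foS T q * rhoS T v * (rhoS T w * foS T q)⁻¹ =
      rhoS T w * (foS T q * rhoS T v * (foS T q)⁻¹) * (rhoS T w)⁻¹ := by group
  rw [e, foS_rhoS, map_mul, map_mul, map_inv]

theorem act_TT (q : QQ T) (i : Fin 3) : ∃ c : M i, ∃ ψ ∈ TT T i, ∀ x,
    eff T q i x = c * ψ x * c⁻¹ := by
  match i with
  | 0 => exact ⟨q.1.left, q.1.right.1, q.1.right.2, fun x => eff0 T q x⟩
  | 1 => exact ⟨1, eff T q 1, Subgroup.mem_top _, fun x => by simp⟩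
  | 2 => exact ⟨1, eff T q 2, Subgroup.mem_top _, fun x => by simp⟩

theorem C_S3 (hC : ClosedE C) (hF : FbC C) (hn : ∀ i, Nontrivial (M i)) (h0 : C (HolT T))
    (h1 : C (Hol (M 1))) (h2 : C (Hol (M 2))) : C (S3 T) := by
  have := rhoS_normal T hn
  refine ext_rel hC hF Set.univ (TT T) (fun i _ => C_TT T hC h0 h1 h2 i) (fun i _ => hn i)
    (fun i hi => absurd (Set.mem_univ i) hi) (rhoS T) ?_ ?_ ?_
  · rw [injective_iff_map_eq_one]
    intro w hw
    exact (injS T hn (q := 1) (by rw [hw, map_one, one_mul])).1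
  · let f : QQ T →* S3 T ⧸ (rhoS T).range := (QuotientGroup.mk' _).comp (foS T)
    have hf : Function.Bijective f := by
      constructor
      · rw [injective_iff_map_eq_one]
        intro q hq
        obtain ⟨w, hw⟩ := (QuotientGroup.eq_one_iff _).1 hq
        exact (injS T hn (w := w⁻¹) (q := q) (by rw [map_inv, hw]; group)).2
      · intro y
        obtain ⟨x, rfl⟩ := QuotientGroup.mk_surjective y
        obtain ⟨w, q, rfl⟩ := decS T hn x
        refine ⟨q, ?_⟩
        show QuotientGroup.mk' _ (foS T q) = QuotientGroup.mk' _ (rhoS T w * foS T q)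
        rw [map_mul]
        have : QuotientGroup.mk' (rhoS T).range (rhoS T w) = 1 :=
          (QuotientGroup.eq_one_iff _).2 ⟨w, rfl⟩
        rw [this, one_mul]
    exact C_equiv hC.base (MulEquiv.ofBijective f hf).symm
      (hC.base.prod _ _ h0 (hC.base.prod _ _ (hol_aut hC h1) (hol_aut hC h2)))
  · intro g i _
    obtain ⟨w, q, rfl⟩ := decS T hn g
    obtain ⟨c, ψ, hψ, h⟩ := act_TT T q i
    refine ⟨w * of c, ψ, hψ, fun x => ?_⟩
    have e : rhoS T w * foS T q * rhoS T (of x) * (rhoS T w * foS T q)⁻¹ =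
        rhoS T w * (foS T q * rhoS T (of x) * (foS T q)⁻¹) * (rhoS T w)⁻¹ := by group
    rw [e, foS_rhoS, Fac_of, h]
    simp only [map_mul, map_inv, mul_inv_rev]
    group

theorem C_holS3 (hC : ClosedE C) (hF : FbC C) (hn : ∀ i, Nontrivial (M i)) (h0 : C (HolT T))
    (h1 : C (Hol (M 1))) (h2 : C (Hol (M 2))) : C (HolT (S3 T)) := by
  refine C_holT hC hF Set.univ (TT T) (fun i _ => C_TT T hC h0 h1 h2 i) (fun i _ => hn i)
    (fun i hi => absurd (Set.mem_univ i) hi) _ ?_ (C_S3 T hC hF hn h0 h1 h2)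
  rintro φ ⟨hφ, τ, hτ, h⟩ i _
  match i with
  | 0 => exact ⟨1, τ, hτ, fun x => by rw [h]; simp⟩
  | 1 =>
    obtain ⟨g, ψ, hψ⟩ := exists_aut (hφ 1)
    exact ⟨g, ψ, Subgroup.mem_top _, hψ⟩
  | 2 =>
    obtain ⟨g, ψ, hψ⟩ := exists_aut (hφ 2)
    exact ⟨g, ψ, Subgroup.mem_top _, hψ⟩

/-- the embedding of the holomorph of the factors in the group of automorphisms -/
noncomputable def embS (i : Fin 3) : HolT (TT T i) →* MulAut (Monoid.CoprodI M) :=
  SemidirectProduct.lift ((VV (M := M)).comp (of (M := M) (i := i)))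
    (((Fac (M := M)).comp (MonoidHom.mulSingle (fun j => MulAut (M j)) i)).comp
      (TT T i).subtype) (by
      intro ψ
      ext m : 1
      show VV (of (ψ.1 m)) = Fac (Pi.mulSingle i ψ.1) * VV (of m) * (Fac (Pi.mulSingle i ψ.1))⁻¹
      rw [fac_VV, Fac_of, Pi.mulSingle_eq_same])

theorem embS_mem (i : Fin 3) (x : HolT (TT T i)) :
    embS T i x ∈ Ext (of (M := M) (i := 0)) T := by
  have h1 : embS T i x = VV (of x.left) * Fac (Pi.mulSingle i x.right.1) := rfl
  rw [h1]
  refine mul_mem (VV_mem T _).2 ?_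
  match i with
  | 0 => exact ⟨x.right.1, x.right.2, fun a => by rw [Fac_of, Pi.mulSingle_eq_same]⟩
  | 1 => exact ⟨1, T.one_mem, fun a => by
      rw [Fac_of, Pi.mulSingle_eq_of_ne (show (0 : Fin 3) ≠ 1 by decide)]⟩
  | 2 => exact ⟨1, T.one_mem, fun a => by
      rw [Fac_of, Pi.mulSingle_eq_of_ne (show (0 : Fin 3) ≠ 2 by decide)]⟩

theorem embS_inj (hn : ∀ i, Nontrivial (M i)) (i : Fin 3) : Function.Injective (embS T i) := by
  rw [injective_iff_map_eq_one]
  intro x hx
  have h1 : VV (of x.left) * Fac (Pi.mulSingle i x.right.1) = 1 := hx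
  obtain ⟨k, hk⟩ := VV_mk (M := M) (of x.left)
  rw [hk, mul_assoc] at h1
  have h0 : W (of x.left) * Fac (Pi.mulSingle i x.right.1) = MulAut.conj k⁻¹ := by
    rw [map_inv MulAut.conj]
    exact (inv_eq_of_mul_eq_one_right h1).symm
  obtain ⟨h2, h3⟩ := inj hn _ _ _ h0
  apply SemidirectProduct.ext
  · apply Monoid.CoprodI.of_injective i
    rw [h2]
    exact (map_one of).symm
  · have h4 := congrFun h3 i
    rw [Pi.mulSingle_eq_same] at h4
    exact Subtype.ext h4

/-- **two complementary factors** -/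
theorem step3 (hC : ClosedE C) (hF : FbC C) (hn : Nontrivial (M 0)) (hI1 : Ind (M 1))
    (hI2 : Ind (M 2)) : C (HolT (Ext (of (M := M) (i := 0)) T)) ↔
      C (HolT T) ∧ C (Hol (M 1)) ∧ C (Hol (M 2)) := by
  have hI : ∀ i : Fin 3, i ≠ 0 → Ind (M i) := by
    intro i hi
    match i with
    | 0 => exact absurd rfl hi
    | 1 => exact hI1
    | 2 => exact hI2
  have hn' : ∀ i, Nontrivial (M i) := by
    intro i
    match i with
    | 0 => exact hn
    | 1 => exact hI1.1
    | 2 => exact hI2.1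
  constructor
  · intro h
    have h1 := holT_right hC h
    have h2 : ∀ i, C (HolT (TT T i)) := by
      intro i
      refine hC.base.of_injective _ _ ((embS T i).codRestrict _ (embS_mem T i)) ?_ h1
      intro x y hxy
      exact embS_inj T hn' i (congrArg Subtype.val hxy)
    have h3 : ∀ (G : Type) [Group G], C (HolT (⊤ : Subgroup (MulAut G))) → C (Hol G) := by
      intro G _ hG
      let f : Hol G →* HolT (⊤ : Subgroup (MulAut G)) :=
        { toFun := fun x => ⟨x.left, ⟨x.right, Subgroup.mem_top _⟩⟩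
          map_one' := rfl
          map_mul' := fun x y => rfl }
      refine hC.base.of_injective _ _ f ?_ hG
      intro x y hxy
      apply SemidirectProduct.ext
      · exact congrArg (fun t => t.left) hxy
      · exact congrArg (fun t => t.right.1) hxy
    exact ⟨h2 0, h3 _ (h2 1), h3 _ (h2 2)⟩
  · rintro ⟨h0, h1, h2⟩
    exact holT_fi hC (S := S3 T) (T := Ext (of (M := M) (i := 0)) T) (fiE hI)
      (C_holS3 T hC hF hn' h0 h1 h2)

end three

end Pool.Agent.U166.OF
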