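import Pool.Agent.U166.OF.StC

/-!
# Stabilizers of a factor with one complementary factor
-/

set_option autoImplicit false

namespace Pool.Agent.U166.OF

open Monoid.CoprodI Pool.Agent.N77.OF Pool.Agent.Y110.FJ Pool.Agent.R684.FP
open Pool.Agent.R941.FJ (C_equiv C_le C_cyc mem_sup_normal)
open Pool.Agent.Y462.SS (Closed)

variable {C : ∀ (G : Type) [Group G], Prop}

section two

variable {M : Fin 2 → Type} [∀ i, Group (M i)] (T : Subgroup (MulAut (M 0)))

theorem rep2_of_mem {φ : MulAut (Monoid.CoprodI M)} (h : φ ∈ PAut M) :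
    ∃ (u : Monoid.CoprodI M) (ψ : MulAut (M 1)), ∀ x : M 1, φ (of x) = u * of (ψ x) * u⁻¹ :=
  exists_aut (h 1)

/-- the automorphisms of the factors, the first factor acting by conjugation -/
abbrev Q2 : Type := HolT T × MulAut (M 1)

/-- the family of automorphisms of the factors -/
def fam2 : Q2 T →* ∀ i, MulAut (M i) where
  toFun q := fun
    | 0 => q.1.right.1
    | 1 => q.2
  map_one' := by
    funext i
    match i with
    | 0 => rfl
    | 1 => rfl
  map_mul' q r := by
    funext i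
    match i with
    | 0 => rfl
    | 1 => rfl

/-- the homomorphism to the group of automorphisms -/
noncomputable def Th2 : Q2 T →* MulAut (Monoid.CoprodI M) where
  toFun q := DD 0 q.1.left * Fac (fam2 T q)
  map_one' := by
    rw [map_one, map_one]
    have : ((1 : Q2 T).1.left) = 1 := rfl
    rw [this, map_one, one_mul]
  map_mul' q r := by
    have h1 := fac_DD (M := M) (fam2 T q) 0 r.1.left
    have h2 : (q * r).1.left = q.1.left * (fam2 T q 0 r.1.left) := rfl
    rw [h2, map_mul, map_mul, map_mul, ← h1]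
    group

theorem Th2_apply (q : Q2 T) : Th2 T q = DD 0 q.1.left * Fac (fam2 T q) := rfl

theorem Th2_0 (q : Q2 T) (x : M 0) : Th2 T q (of x) = of (q.1.right.1 x) := by
  rw [Th2_apply, MulAut.mul_apply, Fac_of]
  exact DD_fix 0 _ _

theorem Th2_1 (q : Q2 T) (x : M 1) :
    Th2 T q (of x) = (of q.1.left)⁻¹ * of (q.2 x) * of q.1.left := by
  rw [Th2_apply, MulAut.mul_apply, Fac_of]
  exact DD_ne (by decide) _ _

theorem Th2_mem (q : Q2 T) : Th2 T q ∈ Ext (of (M := M) (i := 0)) T :=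
  ⟨q.1.right.1, q.1.right.2, Th2_0 T q⟩

theorem Th2_inj (hn : Nontrivial (M 1)) : Function.Injective (Th2 T) := by
  rw [injective_iff_map_eq_one]
  intro q hq
  have hB := BASE.main (Fin 2) M
  obtain ⟨y, hy⟩ := exists_ne (1 : M 1)
  have h1 : ∀ x : M 1, (of q.1.left)⁻¹ * of (q.2 x) * of q.1.left = of x := by
    intro x
    rw [← Th2_1, hq]
    rfl
  have h2 : (of q.1.left)⁻¹ ∈ (of (M := M) (i := 1)).range :=
    malnormal 1 _ (q.2 y) y (fun h0 => hy (by
      have := congrArg q.2.symm h0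
      rwa [MulEquiv.symm_apply_apply, map_one] at this)) (by rw [inv_inv]; exact h1 y)
  obtain ⟨b, hb⟩ := h2
  have ha : q.1.left = 1 := by
    have h7 : dir 0 (of (M := M) q.1.left⁻¹) = q.1.left⁻¹ := RGT.dir_of hB _
    rw [map_inv, ← hb, RGT.dir_of_ne hB (by decide)] at h7
    exact inv_eq_one.1 h7.symm
  refine Prod.ext (SemidirectProduct.ext ha (Subtype.ext ?_)) ?_
  · ext x
    apply Monoid.CoprodI.of_injective (M := M) 0
    rw [← Th2_0, hq]
    rfl
  · ext x
    apply Monoid.CoprodI.of_injective (M := M) 1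
    have := h1 x
    rw [ha, map_one, inv_one, one_mul, mul_one] at this
    exact this

theorem dec2 {φ : MulAut (Monoid.CoprodI M)}
    (hφ : φ ∈ PAut M ⊓ Ext (of (M := M) (i := 0)) T) : ∃ q : Q2 T, Th2 T q = φ := by
  obtain ⟨hp, τ, hτ, h⟩ := hφ
  obtain ⟨u, ψ, hr⟩ := rep2_of_mem hp
  have hB := BASE.main (Fin 2) M
  obtain ⟨c, hc⟩ : ∃ c, c = dir 0 u := ⟨_, rfl⟩
  obtain ⟨u', hu'⟩ : ∃ u', u' = of c⁻¹ * u := ⟨_, rfl⟩
  have h1 : dir 0 u' = 1 := by rw [hu', hB.dir_of_mul, ← hc, inv_mul_cancel]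
  obtain ⟨b, hb⟩ : ∃ b, b = dir 1 u'⁻¹ := ⟨_, rfl⟩
  have h2 : dir 0 (u' * of b) = 1 := by
    rw [RGT.main BASE.main (Fin 2) M 0 1 u' b (fun h => absurd h (by decide)), h1]
  have h3 : dir 1 (u' * of b)⁻¹ = 1 := by
    rw [mul_inv_rev, ← map_inv, hB.dir_of_mul, ← hb, inv_mul_cancel]
  have e1 : (of c)⁻¹ * (u * of b) = u' * of b := by rw [hu', map_inv]; group
  have e2 : (u * of b)⁻¹ * of c = (u' * of b)⁻¹ := by rw [← e1]; group
  let uu : Fin 2 → Monoid.CoprodI M := fun
    | 0 => of c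
    | 1 => u * of b
  let ψψ : ∀ i, MulAut (M i) := fun
    | 0 => MulAut.conj c⁻¹ * τ
    | 1 => MulAut.conj b⁻¹ * ψ
  have hrep : ∀ i (x : M i), φ (of x) = uu i * of (ψψ i x) * (uu i)⁻¹ := by
    intro i x
    match i with
    | 0 =>
      show φ (of x) = of c * of ((MulAut.conj c⁻¹ * τ) x) * (of c)⁻¹
      rw [h, MulAut.mul_apply, MulAut.conj_apply]
      simp only [map_mul, map_inv, inv_inv]
      group
    | 1 =>
      show φ (of x) = u * of b * of ((MulAut.conj b⁻¹ * ψ) x) * (u * of b)⁻¹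
      rw [hr, MulAut.mul_apply, MulAut.conj_apply]
      simp only [map_mul, map_inv, inv_inv]
      group
  have hall : ∀ i j, i ≠ j → dir i ((uu i)⁻¹ * uu j) = 1 := by
    intro i j hij
    match i, j with
    | 0, 0 => exact absurd rfl hij
    | 0, 1 =>
      show dir 0 ((of c)⁻¹ * (u * of b)) = 1
      rw [e1]; exact h2
    | 1, 0 =>
      show dir 1 ((u * of b)⁻¹ * of c) = 1
      rw [e2]; exact h3
    | 1, 1 => exact absurd rfl hij
  have heq := EXA.main BASE.main (MUL.main BASE.main) (RGT.main BASE.main) (Fin 2) M φ uu ψψ hrep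
    hall 0 1
  have hu : u * of b = of c := heq.symm
  obtain ⟨χ, hχ⟩ : ∃ χ, χ = ψψ 1 := ⟨_, rfl⟩
  have hrep1 : ∀ x : M 1, φ (of x) = of c * of (χ x) * (of c)⁻¹ := by
    intro x
    rw [hχ, ← hu]
    exact hrep 1 x
  clear_value ψψ uu
  clear hrep heq hall
  obtain ⟨q, hq1, hq2, hq3⟩ : ∃ q : Q2 T, q.1.left = c⁻¹ ∧ q.1.right.1 = τ ∧ q.2 = χ :=
    ⟨(⟨c⁻¹, ⟨τ, hτ⟩⟩, χ), rfl, rfl, rfl⟩
  refine ⟨q, ?_⟩
  have k0 : ∀ x : M 0, Th2 T q (of x) = φ (of x) := by
    intro x
    rw [Th2_0, hq2, h]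
  have k1 : ∀ x : M 1, Th2 T q (of x) = φ (of x) := by
    intro x
    rw [Th2_1, hrep1, hq1, hq3, map_inv, inv_inv]
  apply MulEquiv.toMonoidHom_injective
  apply Monoid.CoprodI.ext_hom
  intro i
  match i with
  | 0 => exact MonoidHom.ext k0
  | 1 => exact MonoidHom.ext k1

/-- the groups of automorphisms of the factors -/
def TT2 : ∀ i : Fin 2, Subgroup (MulAut (M i))
  | 0 => T
  | 1 => ⊤

/-- **one complementary factor** -/
theorem step2 (hC : ClosedE C) (hF : FbC C) (hn : Nontrivial (M 0)) (hI1 : Ind (M 1)) :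
    C (HolT (Ext (of (M := M) (i := 0)) T)) ↔ C (HolT T) ∧ C (Hol (M 1)) := by
  have hI : ∀ i : Fin 2, i ≠ 0 → Ind (M i) := by
    intro i hi
    match i with
    | 0 => exact absurd rfl hi
    | 1 => exact hI1
  have hn' : ∀ i, Nontrivial (M i) := by
    intro i
    match i with
    | 0 => exact hn
    | 1 => exact hI1.1
  constructor
  · intro h
    have h1 := holT_right hC h
    constructor
    · let f : HolT T →* Ext (of (M := M) (i := 0)) T :=
        ((Th2 T).codRestrict _ (Th2_mem T)).comp (MonoidHom.inl _ _)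
      refine hC.base.of_injective _ _ f ?_ h1
      intro x y hxy
      have h2 : Th2 T (x, 1) = Th2 T (y, 1) := congrArg Subtype.val hxy
      exact congrArg Prod.fst (Th2_inj T hI1.1 h2)
    · let f : Hol (M 1) →* HolT (Ext (of (M := M) (i := 0)) T) :=
        SemidirectProduct.map (of (M := M) (i := 1))
          (((Th2 T).codRestrict _ (Th2_mem T)).comp (MonoidHom.inr _ _)) (by
            intro ψ
            ext x : 1
            show of (ψ x) = Th2 T (1, ψ) (of x)
            rw [Th2_1]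
            simp)
      refine hC.base.of_injective _ _ f ?_ h
      intro x y hxy
      apply SemidirectProduct.ext
      · exact Monoid.CoprodI.of_injective (M := M) 1 (congrArg (fun t => t.left) hxy)
      · have h2 : Th2 T (1, x.right) = Th2 T (1, y.right) := congrArg (fun t => t.right.1) hxy
        exact congrArg Prod.snd (Th2_inj T hI1.1 h2)
  · rintro ⟨h0, h1⟩
    refine holT_fi hC (S := PAut M ⊓ Ext (of (M := M) (i := 0)) T)
      (T := Ext (of (M := M) (i := 0)) T) (fiE hI) ?_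
    refine C_holT hC hF Set.univ (TT2 T) ?_ (fun i _ => hn' i)
      (fun i hi => absurd (Set.mem_univ i) hi) _ ?_ ?_
    · intro i _
      match i with
      | 0 => exact h0
      | 1 => exact holT_top hC h1
    · rintro φ ⟨hφ, τ, hτ, h⟩ i _
      match i with
      | 0 => exact ⟨1, τ, hτ, fun x => by rw [h]; simp⟩
      | 1 =>
        obtain ⟨g, ψ, hψ⟩ := exists_aut (hφ 1)
        exact ⟨g, ψ, Subgroup.mem_top _, hψ⟩
    · have hle : PAut M ⊓ Ext (of (M := M) (i := 0)) T ≤ (Th2 T).range := fun φ hφ => dec2 T hφ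
      refine hC.base.of_injective _ _ (Subgroup.inclusion hle) (Subgroup.inclusion_injective hle) ?_
      exact C_equiv hC.base (MonoidHom.ofInjective (Th2_inj T hI1.1)).symm
        (hC.base.prod _ _ h0 (hol_aut hC h1))

end two

end Pool.Agent.U166.OF
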