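import Pool.Agent.U166.OF.StD

/-!
# Stabilizers of a factor with an infinite cyclic complementary factor
-/

set_option autoImplicit false

namespace Pool.Agent.U166.OF

open Monoid.CoprodI Pool.Agent.N77.OF Pool.Agent.Y110.FJ Pool.Agent.R684.FP
open Pool.Agent.R941.FJ (C_equiv C_le C_cyc mem_sup_normal)
open Pool.Agent.Y462.SS (Closed)

variable {C : ∀ (G : Type) [Group G], Prop}

section two

variable {M : Fin 2 → Type} [∀ i, Group (M i)]

theorem oth {i j k : Fin 2} (h : i ≠ j) : k = i ∨ k = j := by revert h; revert i j k; decide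

theorem dir_ne_iff {i j : Fin 2} (hij : i ≠ j) {g : Monoid.CoprodI M} (hg : g ≠ 1) :
    dir i g = 1 ↔ dir j g ≠ 1 := by
  have hB := BASE.main (Fin 2) M
  constructor
  · intro h1 h2
    apply hg
    apply hB.eq_one
    intro k
    rcases oth (k := k) hij with rfl | rfl
    · exact h1
    · exact h2
  · intro h
    exact hB.dir_ne j i g hij h

/-- powers of an element which begins and ends with syllables of the other factor -/
theorem pow_dir : ∀ (N : ℕ) (i j : Fin 2) (v : Monoid.CoprodI M), i ≠ j → len v = N →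
    dir i v = 1 → dir i v⁻¹ = 1 → ∀ n : ℕ, dir i (v ^ n) = 1 := by
  intro N
  induction N using Nat.strong_induction_on with
  | _ N ih =>
  intro i j v hij hN h1 h1' n
  have hB := BASE.main (Fin 2) M
  by_cases hv : v = 1
  · rw [hv, one_pow, hB.dir_one]
  obtain ⟨m, hm⟩ : ∃ m, m = dir j v := ⟨_, rfl⟩
  have hm1 : m ≠ 1 := by rw [hm]; exact (dir_ne_iff hij hv).1 h1
  obtain ⟨v1, hv1⟩ : ∃ v1, v1 = of m⁻¹ * v := ⟨_, rfl⟩
  have hv' : v = of m * v1 := by rw [hv1, map_inv]; group
  have hj1 : dir j v1 = 1 := by rw [hv1, hB.dir_of_mul, ← hm, inv_mul_cancel]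
  by_cases hv11 : v1 = 1
  · rw [hv', hv11, mul_one, ← map_pow]
    exact RGT.dir_of_ne hB hij _
  have hl1 : len v1 + 1 = len v := by
    have := hB.len_strip j v (by rw [← hm]; exact hm1)
    rw [← hm, ← map_inv, ← hv1] at this
    exact this
  have hv1i : v1⁻¹ ≠ 1 := inv_ne_one.2 hv11
  have hi2 : dir i v1⁻¹ = 1 := by
    have h2 := MUL.main BASE.main (Fin 2) M j i v1⁻¹ (of m⁻¹) hij.symm
      (by rw [inv_inv, hj1, RGT.dir_of hB]; exact (inv_ne_one.2 hm1).symm)
    have h3 : v1⁻¹ * of m⁻¹ = v⁻¹ := by rw [hv', mul_inv_rev, map_inv]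
    rw [h3, h1'] at h2
    exact h2.symm
  obtain ⟨m', hm'⟩ : ∃ m', m' = (dir j v1⁻¹)⁻¹ := ⟨_, rfl⟩
  have hm'1 : m' ≠ 1 := by
    rw [hm']
    exact inv_ne_one.2 ((dir_ne_iff hij hv1i).1 hi2)
  obtain ⟨v2, hv2⟩ : ∃ v2, v2 = v1 * of m'⁻¹ := ⟨_, rfl⟩
  have hv1' : v1 = v2 * of m' := by rw [hv2, map_inv]; group
  have hj2' : dir j v2⁻¹ = 1 := by
    rw [hv2, mul_inv_rev, ← map_inv, inv_inv, hB.dir_of_mul, hm', inv_mul_cancel]
  have hv21 : v2 ≠ 1 := by
    intro h0
    rw [hv1', h0, one_mul, RGT.dir_of hB] at hj1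
    exact hm'1 hj1
  have key : ∀ y : Monoid.CoprodI M, dir j y ≠ 1 → dir i (v2 * y) = dir i v2 := fun y hy =>
    MUL.main BASE.main (Fin 2) M j i v2 y hij.symm (by rw [hj2']; exact hy.symm)
  have hi3 : dir i v2 ≠ 1 := by
    rw [← key (of m') (by rw [RGT.dir_of hB]; exact hm'1), ← hv1']
    intro h0
    exact (dir_ne_iff hij hv11).1 h0 hj1
  have hj2 : dir j v2 = 1 := (dir_ne_iff hij.symm hv21).2 hi3
  have hl2 : len v2 + 1 = len v1 := by
    have := hB.len_strip j v1⁻¹ (by
      intro h0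
      apply hm'1
      rw [hm', h0, inv_one])
    rw [hB.len_inv] at this
    rw [← this, ← hB.len_inv v2]
    congr 2
    rw [hv2, mul_inv_rev, ← map_inv, inv_inv, hm', map_inv]
  by_cases hmm : m' * m = 1
  · have hm2 : m' = m⁻¹ := eq_inv_of_mul_eq_one_left hmm
    have hvn : v ^ n = of m * (v2 ^ n * of m⁻¹) := by
      have : v = of m * v2 * (of m)⁻¹ := by rw [hv', hv1', hm2, map_inv]; group
      rw [this, conj_pow, map_inv, mul_assoc]
    have a1 : dir j (v2 ^ n) = 1 := ih (len v2) (by omega) j i v2 hij.symm rfl hj2 hj2' n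
    have a2 : dir j ((v2 ^ n)⁻¹) = 1 := by
      rw [← inv_pow]
      exact ih (len v2⁻¹) (by rw [hB.len_inv]; omega) j i v2⁻¹ hij.symm rfl hj2'
        (by rw [inv_inv]; exact hj2) n
    by_cases h0 : v2 ^ n = 1
    · rw [hvn, h0, one_mul, ← map_mul, mul_inv_cancel, map_one, hB.dir_one]
    have a3 : dir i (v2 ^ n * of m⁻¹) = dir i (v2 ^ n) :=
      MUL.main BASE.main (Fin 2) M j i _ _ hij.symm
        (by rw [a2, RGT.dir_of hB]; exact (inv_ne_one.2 hm1).symm)
    have a4 : dir i (v2 ^ n) ≠ 1 := fun h => (dir_ne_iff hij h0).1 h a1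
    have a5 : dir j (v2 ^ n * of m⁻¹) = 1 := hB.dir_ne i j _ hij.symm (by rw [a3]; exact a4)
    have a6 : dir j (v ^ n) ≠ 1 := by
      rw [hvn, hB.dir_of_mul, a5, mul_one]
      exact hm1
    exact hB.dir_ne j i _ hij a6
  · cases n with
    | zero => rw [pow_zero, hB.dir_one]
    | succ n =>
      have hh : ∀ n : ℕ, ∃ h, v ^ (n + 1) = of m * h ∧ dir j h = 1 := by
        intro n
        induction n with
        | zero => exact ⟨v1, by rw [zero_add, pow_one]; exact hv', hj1⟩
        | succ n ihn =>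
          obtain ⟨h, e, hd⟩ := ihn
          refine ⟨v2 * (of (m' * m) * h), ?_, ?_⟩
          · rw [pow_succ', e, hv', hv1', map_mul]
            group
          · have b1 : dir j (of (m' * m) * h) ≠ 1 := by
              rw [hB.dir_of_mul, hd, mul_one]
              exact hmm
            exact hB.dir_ne i j _ hij.symm (by rw [key _ b1]; exact hi3)
      obtain ⟨h, e, hd⟩ := hh n
      have a6 : dir j (v ^ (n + 1)) ≠ 1 := by
        rw [e, hB.dir_of_mul, hd, mul_one]
        exact hm1
      exact hB.dir_ne j i _ hij a6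

theorem zpow_dir {v : Monoid.CoprodI M} (h1 : dir 0 v = 1) (h2 : dir 0 v⁻¹ = 1) (n : ℤ) :
    dir 0 (v ^ n) = 1 := by
  rcases n with n | n
  · rw [Int.ofNat_eq_natCast, zpow_natCast]
    exact pow_dir _ 0 1 v (by decide) rfl h1 h2 n
  · rw [zpow_negSucc, ← inv_pow]
    exact pow_dir _ 0 1 v⁻¹ (by decide) rfl h2 (by rw [inv_inv]; exact h1) _

/-- products of good elements -/
theorem good_dir {i j k : Fin 2} {g h : Monoid.CoprodI M} (hi : dir i g ≠ 1)
    (hj : dir j g⁻¹ ≠ 1) (hk : dir k h ≠ 1) (hjk : j ≠ k) :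
    dir i (g * h) ≠ 1 ∧ len (g * h) = len g + len h := by
  have hB := BASE.main (Fin 2) M
  have h1 : dir k g⁻¹ = 1 := hB.dir_ne j k _ hjk.symm hj
  have h2 : dir k g⁻¹ ≠ dir k h := by rw [h1]; exact hk.symm
  have hl : len (g * h) = len g + len h := len_red k g h h2 (Or.inr h1)
  refine ⟨?_, hl⟩
  have hh : h ≠ 1 := by
    rintro rfl
    exact hk (hB.dir_one k)
  have hgh : g * h ≠ 1 := by
    intro h0
    rw [h0, (hB.len_one 1).2 rfl] at hl
    exact hh ((hB.len_one h).1 (by omega))
  by_cases hik : i = k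
  · subst hik
    have h3 : dir j (g * h) = dir j g :=
      MUL.main BASE.main (Fin 2) M i j g h hjk.symm h2
    have h4 : dir j g = 1 := hB.dir_ne i j g hjk hi
    intro h5
    exact (dir_ne_iff hjk.symm hgh).1 h5 (h3.trans h4)
  · rw [MUL.main BASE.main (Fin 2) M k i g h (Ne.symm hik) h2]
    exact hi

variable (e : Multiplicative ℤ ≃* M 1)

/-- the generator -/
def tt : M 1 := e (Multiplicative.ofAdd 1)

theorem tt_zpow (n : ℤ) : tt e ^ n = e (Multiplicative.ofAdd n) := by
  unfold tt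
  rw [← map_zpow]
  congr 1
  rw [← ofAdd_zsmul]
  simp

/-- the endomorphism with given values on `M 0` and on the generator -/
noncomputable def en (f : M 0 →* Monoid.CoprodI M) (v : Monoid.CoprodI M) :
    Monoid.CoprodI M →* Monoid.CoprodI M :=
  Monoid.CoprodI.lift fun
    | 0 => f
    | 1 => (zpowersHom _ v).comp e.symm.toMonoidHom

theorem en_0 (f : M 0 →* Monoid.CoprodI M) (v : Monoid.CoprodI M) (x : M 0) :
    en e f v (of x) = f x := by
  simp [en]

theorem en_1 (f : M 0 →* Monoid.CoprodI M) (v : Monoid.CoprodI M) (n : ℤ) :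
    en e f v (of (tt e ^ n)) = v ^ n := by
  rw [tt_zpow]
  simp [en]

theorem en_t (f : M 0 →* Monoid.CoprodI M) (v : Monoid.CoprodI M) :
    en e f v (of (tt e)) = v := by
  have := en_1 e f v 1
  rwa [zpow_one, zpow_one] at this

theorem exists_zpow (x : M 1) : ∃ n : ℤ, x = tt e ^ n := by
  refine ⟨Multiplicative.toAdd (e.symm x), ?_⟩
  rw [tt_zpow]
  simp

theorem hom_ext2 {N : Type} [Group N] {f g : Monoid.CoprodI M →* N}
    (h0 : ∀ x : M 0, f (of x) = g (of x)) (h1 : f (of (tt e)) = g (of (tt e))) : f = g := by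
  apply Monoid.CoprodI.ext_hom
  intro i
  match i with
  | 0 => exact MonoidHom.ext h0
  | 1 =>
    ext x : 1
    obtain ⟨n, rfl⟩ := exists_zpow e x
    show f (of _) = g (of _)
    rw [map_zpow, map_zpow, map_zpow, h1]

/-- the projection to the integers -/
noncomputable def ep : Monoid.CoprodI M →* Multiplicative ℤ :=
  Monoid.CoprodI.lift fun
    | 0 => 1
    | 1 => e.symm.toMonoidHom

theorem ep_0 (x : M 0) : ep e (of x) = 1 := by simp [ep]
theorem ep_t : ep e (of (tt e)) = Multiplicative.ofAdd 1 := by simp [ep, tt]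

/-- **an endomorphism over `M 0` which is onto** -/
theorem onto_t {v : Monoid.CoprodI M} (hs : Function.Surjective (en e (of (M := M) (i := 0)) v))
    (h1 : dir 0 v = 1) (h2 : dir 0 v⁻¹ = 1) : v = of (tt e) ∨ v = of (tt e)⁻¹ := by
  have hB := BASE.main (Fin 2) M
  obtain ⟨F, hF⟩ : ∃ F, F = en e (of (M := M) (i := 0)) v := ⟨_, rfl⟩
  have hF0 : ∀ x : M 0, F (of x) = of x := fun x => by rw [hF, en_0]
  have hF1 : ∀ n : ℤ, F (of (tt e ^ n)) = v ^ n := fun n => by rw [hF, en_1]
  have hFt : F (of (tt e)) = v := by rw [hF, en_t]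
  rw [← hF] at hs
  -- `v` has infinite order
  have hinf : ∀ n : ℤ, n ≠ 0 → v ^ n ≠ 1 := by
    intro n hn hvn
    have h3 : (ep e v) ^ n = 1 := by rw [← map_zpow, hvn, map_one]
    have h4 : ep e v = 1 := by
      have h5 : Multiplicative.toAdd (ep e v) = 0 := by
        have h6 := congrArg Multiplicative.toAdd h3
        rw [toAdd_zpow, toAdd_one, smul_eq_mul, mul_eq_zero] at h6
        exact h6.resolve_left hn
      exact Multiplicative.toAdd.injective h5
    have h5 : (ep e).comp F = 1 := by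
      apply hom_ext2 e
      · intro x
        show ep e (F (of x)) = 1
        rw [hF0, ep_0]
      · show ep e (F (of (tt e))) = 1
        rw [hFt, h4]
    obtain ⟨g, hg⟩ := hs (of (tt e))
    have h6 : ep e (F g) = 1 := DFunLike.congr_fun h5 g
    rw [hg, ep_t] at h6
    exact absurd (congrArg Multiplicative.toAdd h6) (by simp)
  -- images of reduced words
  have hw : ∀ {i j : Fin 2} (w : NeWord M i j), dir i (F w.prod) ≠ 1 ∧ dir j (F w.prod)⁻¹ ≠ 1 ∧
      len w.prod ≤ len (F w.prod) := by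
    intro i j w
    induction w with
    | @singleton i x hx =>
      rw [NeWord.prod_singleton]
      match i with
      | 0 =>
        rw [hF0]
        refine ⟨by rw [RGT.dir_of hB]; exact hx, ?_, le_rfl⟩
        rw [← map_inv, RGT.dir_of hB]
        exact inv_ne_one.2 hx
      | 1 =>
        obtain ⟨n, rfl⟩ := exists_zpow e x
        have hn : n ≠ 0 := by
          rintro rfl
          exact hx (zpow_zero _)
        have hv := hinf n hn
        rw [hF1, len_of hx]
        refine ⟨?_, ?_, ?_⟩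
        · exact (dir_ne_iff (by decide) hv).1 (zpow_dir h1 h2 n)
        · rw [← zpow_neg]
          exact (dir_ne_iff (by decide) (hinf (-n) (neg_ne_zero.2 hn))).1 (zpow_dir h1 h2 (-n))
        · have : len (v ^ n) ≠ 0 := fun h0 => hv ((hB.len_one _).1 h0)
          omega
    | @append i j k l w₁ hne w₂ ih₁ ih₂ =>
      obtain ⟨a1, a2, a3⟩ := ih₁
      obtain ⟨b1, b2, b3⟩ := ih₂
      rw [NeWord.append_prod, map_mul]
      obtain ⟨c1, c2⟩ := good_dir a1 a2 b1 hne
      refine ⟨c1, ?_, ?_⟩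
      · rw [mul_inv_rev]
        exact (good_dir b2 (by rw [inv_inv]; exact b1) a2 hne.symm).1
      · rw [c2]
        exact (hB.len_mul _ _).trans (Nat.add_le_add a3 b3)
  obtain ⟨g, hg⟩ := hs (of (tt e))
  have htt : tt e ≠ 1 := by
    intro h
    have h3 := ep_t e
    rw [h, map_one, map_one] at h3
    exact absurd (congrArg Multiplicative.toAdd h3) (by simp)
  have hg1 : g ≠ 1 := by
    rintro rfl
    rw [map_one] at hg
    apply htt
    apply Monoid.CoprodI.of_injective (M := M) 1
    rw [← hg, map_one]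
  obtain ⟨i, j, w, rfl⟩ := MUL.exists_word hg1
  obtain ⟨-, -, h5⟩ := hw w
  rw [hg, len_of htt] at h5
  rcases nw_split w with ⟨m, hm, rfl, hwm⟩ | ⟨m, k, w', hm, hk, hwm⟩
  · match i, w, m, hm, hwm with
    | 0, w, m, hm, hwm =>
      exfalso
      rw [hwm, hF0] at hg
      have h6 : dir 0 (of (M := M) m) = m := RGT.dir_of hB m
      rw [hg, RGT.dir_of_ne hB (by decide)] at h6
      exact hm h6.symm
    | 1, w, m, hm, hwm =>
      obtain ⟨n, rfl⟩ := exists_zpow e m
      rw [hwm, hF1] at hg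
      have h6 : ep e v ^ n = Multiplicative.ofAdd 1 := by rw [← map_zpow, hg, ep_t]
      have h7 : n * Multiplicative.toAdd (ep e v) = 1 := by
        have := congrArg Multiplicative.toAdd h6
        rwa [toAdd_zpow, toAdd_ofAdd, smul_eq_mul] at this
      rcases Int.eq_one_or_neg_one_of_mul_eq_one h7 with rfl | rfl
      · left
        rw [zpow_one] at hg
        exact hg
      · right
        rw [map_inv, ← hg]
        simp
  · exfalso
    have h6 : len (of (M := M) m * w'.prod) = len (of (M := M) m) + len w'.prod := by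
      have hd : dir i w'.prod = 1 := MUL.dir_other w' hk.symm
      apply len_red i
      · rw [← map_inv, RGT.dir_of hB, hd]
        exact inv_ne_one.2 hm
      · exact Or.inl hd
    have h7 : len w'.prod ≠ 0 := by
      intro h0
      have h8 := (hB.len_one _).1 h0
      have h9 := MUL.dir_same w'
      rw [h8, hB.dir_one] at h9
      have h10 : w'.toWord.toList.head? = some ⟨k, w'.head⟩ := w'.toList_head?
      exact w'.toWord.ne_one _ (List.mem_of_mem_head? h10) h9.symm
    rw [hwm, h6, len_of hm] at h5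
    omega

end two

end Pool.Agent.U166.OF
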