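import Pool.Agent.U166.OF.StE

/-!
# Stabilizers of a factor with an infinite cyclic complementary factor: the class
-/

set_option autoImplicit false

namespace Pool.Agent.U166.OF

open Monoid.CoprodI Pool.Agent.N77.OF Pool.Agent.Y110.FJ Pool.Agent.R684.FP
open Pool.Agent.R941.FJ (C_equiv C_le C_cyc mem_sup_normal)
open Pool.Agent.Y462.SS (Closed)

variable {C : ∀ (G : Type) [Group G], Prop}

section two

variable {M : Fin 2 → Type} [∀ i, Group (M i)] (T : Subgroup (MulAut (M 0)))
  (e : Multiplicative ℤ ≃* M 1)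

/-- pairs with the same automorphism -/
def PP : Subgroup (HolT T × HolT T) where
  carrier := {p | p.1.right = p.2.right}
  one_mem' := rfl
  mul_mem' := by
    intro p q hp hq
    show p.1.right * q.1.right = p.2.right * q.2.right
    rw [show p.1.right = p.2.right from hp, show q.1.right = q.2.right from hq]
  inv_mem' := by
    intro p hp
    show p.1.right⁻¹ = p.2.right⁻¹
    rw [show p.1.right = p.2.right from hp]

/-- the endomorphism of a pair -/
noncomputable def thH (p : HolT T × HolT T) : Monoid.CoprodI M →* Monoid.CoprodI M :=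
  en e ((of (M := M) (i := 0)).comp p.1.right.1.toMonoidHom)
    ((of p.1.left)⁻¹ * of (tt e) * of p.2.left)

theorem thH_0 (p : HolT T × HolT T) (x : M 0) : thH T e p (of x) = of (p.1.right.1 x) := by
  unfold thH
  rw [en_0]
  rfl

theorem thH_t (p : HolT T × HolT T) :
    thH T e p (of (tt e)) = (of p.1.left)⁻¹ * of (tt e) * of p.2.left := by
  unfold thH
  rw [en_t]

theorem thH_one : thH T e 1 = MonoidHom.id (Monoid.CoprodI M) := by
  apply hom_ext2 e
  · intro x
    rw [thH_0]
    rfl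
  · rw [thH_t]
    show (of (1 : M 0))⁻¹ * of (tt e) * of (1 : M 0) = of (tt e)
    simp

theorem thH_mul (p q : HolT T × HolT T) (hp : p ∈ PP T) :
    thH T e (p * q) = (thH T e p).comp (thH T e q) := by
  apply hom_ext2 e
  · intro x
    rw [MonoidHom.comp_apply, thH_0, thH_0, thH_0]
    rfl
  · rw [MonoidHom.comp_apply, thH_t, thH_t, map_mul, map_mul, map_inv, thH_0, thH_0, thH_t]
    have h1 : (p * q).1.left = p.1.left * p.1.right.1 q.1.left := rfl
    have h2 : (p * q).2.left = p.2.left * p.2.right.1 q.2.left := rfl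
    have h3 : p.1.right = p.2.right := hp
    rw [h1, h2, ← h3, map_mul, map_mul]
    group

/-- the automorphism of a pair -/
noncomputable def th : PP T →* MulAut (Monoid.CoprodI M) where
  toFun p := MonoidHom.toMulEquiv (thH T e p.1) (thH T e (p⁻¹).1)
    (by rw [← thH_mul T e _ _ (p⁻¹).2, ← Subgroup.coe_mul, inv_mul_cancel]; exact thH_one T e)
    (by rw [← thH_mul T e _ _ p.2, ← Subgroup.coe_mul, mul_inv_cancel]; exact thH_one T e)
  map_one' := by
    apply MulEquiv.toMonoidHom_injective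
    exact thH_one T e
  map_mul' p q := by
    apply MulEquiv.toMonoidHom_injective
    exact thH_mul T e p.1 q.1 p.2

theorem th_0 (p : PP T) (x : M 0) : th T e p (of x) = of (p.1.1.right.1 x) := thH_0 T e p.1 x
theorem th_t (p : PP T) :
    th T e p (of (tt e)) = (of p.1.1.left)⁻¹ * of (tt e) * of p.1.2.left := thH_t T e p.1

theorem th_mem (p : PP T) : th T e p ∈ Ext (of (M := M) (i := 0)) T :=
  ⟨p.1.1.right.1, p.1.1.right.2, th_0 T e p⟩

theorem tt_ne : tt e ≠ 1 := by
  intro h
  have h3 := ep_t e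
  rw [h, map_one, map_one] at h3
  exact absurd (congrArg Multiplicative.toAdd h3) (by simp)

theorem th_inj : Function.Injective (th T e) := by
  rw [injective_iff_map_eq_one]
  intro p hp
  have hB := BASE.main (Fin 2) M
  have h0 : ∀ x : M 0, of (p.1.1.right.1 x) = of (M := M) x := by
    intro x
    rw [← th_0 T e p, hp]; rfl
  have h1 : (of p.1.1.left)⁻¹ * of (tt e) * of p.1.2.left = of (M := M) (tt e) := by
    rw [← th_t T e p, hp]; rfl
  have h2 : dir 0 (of (M := M) (tt e)) = 1 := RGT.dir_of_ne hB (by decide) _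
  have hng : (of (tt e) : Monoid.CoprodI M) ∉ (of (M := M) (i := 0)).range := by
    rintro ⟨x, hx⟩
    have h3 := congrArg (ep e) hx
    rw [ep_0, ep_t] at h3
    exact absurd (congrArg Multiplicative.toAdd h3) (by simp)
  have h3 : p.1.1.left = 1 := by
    have h4 := congrArg (dir 0) h1
    rw [mul_assoc, ← map_inv, hB.dir_of_mul, RGT.main BASE.main (Fin 2) M 0 0 _ _ (fun _ => hng),
      h2, mul_one] at h4
    exact inv_eq_one.1 h4
  have h4 : p.1.2.left = 1 := by
    rw [h3, map_one, inv_one, one_mul] at h1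
    have h5 : (of p.1.2.left : Monoid.CoprodI M) = 1 := mul_eq_left.1 h1
    apply Monoid.CoprodI.of_injective (M := M) 0
    rw [h5, map_one]
  have h5 : p.1.1.right = 1 := by
    apply Subtype.ext
    ext x
    exact Monoid.CoprodI.of_injective (M := M) 0 (h0 x)
  apply Subtype.ext
  refine Prod.ext (SemidirectProduct.ext h3 h5) (SemidirectProduct.ext h4 ?_)
  rw [← show p.1.1.right = p.1.2.right from p.2]
  exact h5

/-- the value on the generator -/
theorem val_t {φ : MulAut (Monoid.CoprodI M)} (hφ : φ ∈ Ext (of (M := M) (i := 0)) T) :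
    ∃ a b : M 0, φ (of (tt e)) = of a * of (tt e) * of b ∨
      φ (of (tt e)) = of a * of (tt e)⁻¹ * of b := by
  have hB := BASE.main (Fin 2) M
  have hx : ∀ x : M 0, ∃ y : M 0, φ (of y) = of x := by
    intro x
    obtain ⟨τ, -, h⟩ := inv_mem hφ
    exact ⟨τ x, by rw [← h, MulAut.apply_inv_self]⟩
  have hng : φ (of (tt e)) ∉ (of (M := M) (i := 0)).range := by
    rintro ⟨x, h⟩
    obtain ⟨y, hy⟩ := hx x
    have h1 : of (M := M) y = of (tt e) := φ.injective (hy.trans h)
    have h3 := congrArg (ep e) h1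
    rw [ep_0, ep_t] at h3
    exact absurd (congrArg Multiplicative.toAdd h3) (by simp)
  obtain ⟨a, ha⟩ : ∃ a, a = dir 0 (φ (of (tt e))) := ⟨_, rfl⟩
  obtain ⟨v1, hv1⟩ : ∃ v1, v1 = of a⁻¹ * φ (of (tt e)) := ⟨_, rfl⟩
  have h1 : dir 0 v1 = 1 := by rw [hv1, hB.dir_of_mul, ← ha, inv_mul_cancel]
  have hng1 : v1 ∉ (of (M := M) (i := 0)).range := by
    rintro ⟨x, h⟩
    apply hng
    refine ⟨a * x, ?_⟩
    rw [map_mul, h, hv1, map_inv]
    group
  obtain ⟨b, hb⟩ : ∃ b, b = dir 0 v1⁻¹ := ⟨_, rfl⟩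
  obtain ⟨v, hv⟩ : ∃ v, v = v1 * of b := ⟨_, rfl⟩
  have h2 : dir 0 v = 1 := by
    rw [hv, RGT.main BASE.main (Fin 2) M 0 0 _ _ (fun _ => hng1), h1]
  have h3 : dir 0 v⁻¹ = 1 := by
    rw [hv, mul_inv_rev, ← map_inv, hB.dir_of_mul, ← hb, inv_mul_cancel]
  have hvt : φ (of (tt e)) = of a * v * of b⁻¹ := by
    rw [hv, hv1, map_inv, map_inv]; group
  have hs : Function.Surjective (en e (of (M := M) (i := 0)) v) := by
    obtain ⟨F, hF⟩ : ∃ F, F = en e (of (M := M) (i := 0)) v := ⟨_, rfl⟩
    have hF0 : ∀ x : M 0, F (of x) = of x := fun x => by rw [hF, en_0]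
    have hFt : F (of (tt e)) = v := by rw [hF, en_t]
    rw [← hF]
    have hle : ∀ g, φ g ∈ F.range := by
      intro g
      have hcl : φ.toMonoidHom.range ≤ F.range := by
        rintro _ ⟨g, rfl⟩
        induction g using Monoid.CoprodI.induction_on with
        | one => rw [map_one]; exact F.range.one_mem
        | of i m =>
          match i with
          | 0 =>
            obtain ⟨τ, -, h⟩ := hφ
            exact ⟨of (τ m), by rw [hF0]; exact (h m).symm⟩
          | 1 =>
            obtain ⟨n, rfl⟩ := exists_zpow e m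
            rw [map_zpow, map_zpow]
            refine F.range.zpow_mem ?_ n
            refine ⟨of a * of (tt e) * of b⁻¹, ?_⟩
            rw [map_mul, map_mul, hF0, hF0, hFt]
            exact hvt.symm
        | mul x y hx hy => rw [map_mul]; exact F.range.mul_mem hx hy
      exact hcl ⟨g, rfl⟩
    intro g
    obtain ⟨g', rfl⟩ := φ.surjective g
    exact hle g'
  rcases onto_t e hs h2 h3 with h4 | h4
  · exact ⟨a, b⁻¹, Or.inl (by rw [hvt, h4])⟩
  · exact ⟨a, b⁻¹, Or.inr (by rw [hvt, h4])⟩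

theorem mem_th {φ : MulAut (Monoid.CoprodI M)} (hφ : φ ∈ Ext (of (M := M) (i := 0)) T)
    {a b : M 0} (h : φ (of (tt e)) = of a * of (tt e) * of b) : φ ∈ (th T e).range := by
  obtain ⟨τ, hτ, h0⟩ := hφ
  refine ⟨⟨(⟨a⁻¹, ⟨τ, hτ⟩⟩, ⟨b, ⟨τ, hτ⟩⟩), rfl⟩, ?_⟩
  apply MulEquiv.toMonoidHom_injective
  apply hom_ext2 e
  · intro x
    exact (th_0 T e _ x).trans (h0 x).symm
  · refine (th_t T e _).trans ?_
    show (of a⁻¹)⁻¹ * of (tt e) * of b = φ (of (tt e))
    rw [h, map_inv, inv_inv]

/-- the sign -/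
theorem fi_th : ((th T e).range.subgroupOf (Ext (of (M := M) (i := 0)) T)).FiniteIndex := by
  classical
  let P := (th T e).range.subgroupOf (Ext (of (M := M) (i := 0)) T)
  let s : Ext (of (M := M) (i := 0)) T → Prop := fun φ =>
    ∃ a b : M 0, φ.1 (of (tt e)) = of a * of (tt e) * of b
  have key : ∀ φ χ : Ext (of (M := M) (i := 0)) T, (s φ ↔ s χ) → χ⁻¹ * φ ∈ P := by
    intro φ χ hs
    obtain ⟨τ, -, hτ⟩ := inv_mem χ.2
    -- reduce to a statement on the generator
    suffices hh : ∃ a b : M 0, (χ⁻¹ * φ).1 (of (tt e)) = of a * of (tt e) * of b by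
      obtain ⟨a, b, h⟩ := hh
      exact mem_th T e (χ⁻¹ * φ).2 h
    by_cases h : s φ
    · obtain ⟨a, b, h1⟩ := h
      obtain ⟨c, d, h2⟩ := hs.1 ⟨a, b, h1⟩
      refine ⟨τ a * (τ c)⁻¹, (τ d)⁻¹ * τ b, ?_⟩
      have h3 : of (tt e) = of (τ c) * χ.1⁻¹ (of (tt e)) * of (τ d) := by
        rw [← hτ, ← hτ, ← map_mul, ← map_mul, ← h2, MulAut.inv_apply_self]
      show χ.1⁻¹ (φ.1 (of (tt e))) = _
      rw [h1, map_mul, map_mul, hτ, hτ]
      have h4 : χ.1⁻¹ (of (tt e)) = (of (τ c))⁻¹ * of (tt e) * (of (τ d))⁻¹ := by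
        conv_rhs => rw [h3]
        group
      rw [h4]
      simp only [map_mul, map_inv]
      group
    · obtain ⟨a, b, h1⟩ := val_t T e φ.2
      have h1' := h1.resolve_left fun h' => h ⟨a, b, h'⟩
      obtain ⟨c, d, h2⟩ := val_t T e χ.2
      have h2' := h2.resolve_left fun h' => h (hs.2 ⟨c, d, h'⟩)
      refine ⟨τ a * (τ c)⁻¹, (τ d)⁻¹ * τ b, ?_⟩
      have h3 : of (tt e) = of (τ c) * (χ.1⁻¹ (of (tt e)))⁻¹ * of (τ d) := by
        rw [← hτ, ← hτ, ← map_inv, ← map_mul, ← map_mul, ← map_inv, ← h2', MulAut.inv_apply_self]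
      show χ.1⁻¹ (φ.1 (of (tt e))) = _
      rw [h1', map_mul, map_mul, hτ, hτ, map_inv, map_inv]
      have h4 : (χ.1⁻¹ (of (tt e)))⁻¹ = (of (τ c))⁻¹ * of (tt e) * (of (τ d))⁻¹ := by
        conv_rhs => rw [h3]
        group
      rw [h4]
      simp only [map_mul, map_inv]
      group
  have hinj : Function.Injective
      (fun q : (Ext (of (M := M) (i := 0)) T) ⧸ P => s q.out) := by
    intro q r hqr
    have h1 := key q.out r.out (iff_of_eq hqr)
    rw [← QuotientGroup.out_eq' q, ← QuotientGroup.out_eq' r]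
    exact (QuotientGroup.eq.2 h1).symm
  have : Finite ((Ext (of (M := M) (i := 0)) T) ⧸ P) := Finite.of_injective _ hinj
  exact Subgroup.finiteIndex_of_finite_quotient

include e in
theorem C_extZ (hC : ClosedE C) (h0 : C (HolT T)) : C (Ext (of (M := M) (i := 0)) T) := by
  have hle : (th T e).range ≤ Ext (of (M := M) (i := 0)) T := by
    rintro _ ⟨p, rfl⟩
    exact th_mem T e p
  have hfi := fi_th T e
  refine hC.base.finiteIndex _ ((th T e).range.subgroupOf (Ext (of (M := M) (i := 0)) T))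
    ⟨hfi.index_ne_zero⟩ ?_
  refine C_equiv hC.base (Subgroup.subgroupOfEquivOfLe hle) ?_
  refine C_equiv hC.base (MonoidHom.ofInjective (th_inj T e)).symm ?_
  exact hC.base.of_injective _ _ (PP T).subtype (PP T).subtype_injective (hC.base.prod _ _ h0 h0)

include e in
/-- **an infinite cyclic complementary factor** -/
theorem stepZ (hC : ClosedE C) (hF : FbC C) (hn : Nontrivial (M 0)) :
    C (HolT (Ext (of (M := M) (i := 0)) T)) ↔ C (HolT T) := by
  constructor
  · intro h
    have h1 := holT_right hC h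
    let f : HolT T →* PP T :=
      { toFun := fun x => ⟨(x, ⟨1, x.right⟩), rfl⟩
        map_one' := rfl
        map_mul' := by
          intro x y
          apply Subtype.ext
          refine Prod.ext rfl (SemidirectProduct.ext ?_ rfl)
          show (1 : M 0) = 1 * x.right.1 1
          rw [map_one, mul_one] }
    refine hC.base.of_injective _ _ (((th T e).codRestrict _ (th_mem T e)).comp f) ?_ h1
    intro x y hxy
    have h2 : f x = f y := th_inj T e (congrArg Subtype.val hxy)
    exact congrArg (fun t => t.1.1) h2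
  · intro h0
    refine C_holT hC hF {0} (fun | 0 => T | 1 => ⊤) ?_ ?_ ?_ _ ?_ (C_extZ T e hC h0)
    · rintro i rfl
      exact h0
    · rintro i rfl
      exact hn
    · intro i hi
      match i with
      | 0 => exact absurd rfl hi
      | 1 => exact IsFreeGroup.ofMulEquiv ((FreeGroup.mulEquivIntOfUnique (α := Unit)).trans e)
    · rintro φ ⟨τ, hτ, h⟩ i rfl
      exact ⟨1, τ, hτ, fun x => by rw [h]; simp⟩

end two

end Pool.Agent.U166.OF
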