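import Pool.Agent.U166.OF.StF

/-!
# Stabilizers of chains of free factors
-/

set_option autoImplicit false

namespace Pool.Agent.U166.OF

open Monoid.CoprodI Pool.Agent.N77.OF Pool.Agent.Y110.FJ Pool.Agent.R684.FP
open Pool.Agent.H599R3.RH (Splits)
open Pool.Agent.R941.FJ (C_equiv C_le C_cyc mem_sup_normal)
open Pool.Agent.Y462.SS (Closed)

variable {C : ∀ (G : Type) [Group G], Prop}

/-- transport -/
theorem holT_tr (hC : ClosedE C) {H G : Type} [Group H] [Group G] (e : H ≃* G)
    (S : Subgroup (MulAut G)) (S' : Subgroup (MulAut H)) (h : ∀ φ ∈ S', MulAut.congr e φ ∈ S)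
    (hS : C (HolT S)) : C (HolT S') := by
  let f : HolT S' →* HolT S :=
    { toFun := fun x => ⟨e x.left, ⟨MulAut.congr e x.right.1, h _ x.right.2⟩⟩
      map_one' := by
        refine SemidirectProduct.ext (map_one e) (Subtype.ext ?_)
        exact map_one (MulAut.congr e)
      map_mul' := by
        intro x y
        refine SemidirectProduct.ext ?_ (Subtype.ext ?_)
        · show e (x.left * x.right.1 y.left) = e x.left * MulAut.congr e x.right.1 (e y.left)
          rw [map_mul]
          congr 1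
          show _ = e (x.right.1 (e.symm (e y.left)))
          rw [e.symm_apply_apply]
        · exact map_mul (MulAut.congr e) _ _ }
  refine hC.base.of_injective _ _ f ?_ hS
  intro x y hxy
  refine SemidirectProduct.ext (e.injective ?_) (Subtype.ext ?_)
  · exact congrArg (fun t => t.left) hxy
  · exact (MulAut.congr e).injective (congrArg (fun t => t.right.1) hxy)

theorem ext_tr (hC : ClosedE C) {A H G : Type} [Group A] [Group H] [Group G] (e : H ≃* G)
    (α : A →* H) (α' : A →* G) (hα : ∀ a, e (α a) = α' a) (T : Subgroup (MulAut A)) :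
    C (HolT (Ext α T)) ↔ C (HolT (Ext α' T)) := by
  constructor
  · refine holT_tr hC e.symm _ _ ?_
    rintro φ ⟨τ, hτ, h⟩
    refine ⟨τ, hτ, fun a => ?_⟩
    show e.symm (φ (e.symm.symm (α a))) = α (τ a)
    rw [e.symm_apply_eq, hα, ← h, ← hα]
    rfl
  · refine holT_tr hC e _ _ ?_
    rintro φ ⟨τ, hτ, h⟩
    refine ⟨τ, hτ, fun a => ?_⟩
    show e (φ (e.symm (α' a))) = α' (τ a)
    rw [← hα, ← hα, e.symm_apply_apply, h]

/-- three groups -/
def F3 (A B D : Type) : Fin 3 → Type
  | 0 => A
  | 1 => B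
  | 2 => D

instance instF3 (A B D : Type) [Group A] [Group B] [Group D] : ∀ i, Group (F3 A B D i)
  | 0 => inferInstanceAs (Group A)
  | 1 => inferInstanceAs (Group B)
  | 2 => inferInstanceAs (Group D)

/-- two groups -/
def F2 (A B : Type) : Fin 2 → Type
  | 0 => A
  | 1 => B

instance instF2 (A B : Type) [Group A] [Group B] : ∀ i, Group (F2 A B i)
  | 0 => inferInstanceAs (Group A)
  | 1 => inferInstanceAs (Group B)

section
variable {A B D E : Type} [Group A] [Group B] [Group D] [Group E] (α : A →* E) (β : B →* E)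
  (γ : D →* E) (hf : Function.Bijective (Monoid.Coprod.lift α (Monoid.Coprod.lift β γ)))

/-- the isomorphism for three groups -/
noncomputable def e3 : Monoid.CoprodI (F3 A B D) ≃* E := by
  let u : Monoid.CoprodI (F3 A B D) →* E := Monoid.CoprodI.lift fun
    | 0 => α
    | 1 => β
    | 2 => γ
  let i0 : A →* Monoid.CoprodI (F3 A B D) := of (M := F3 A B D) (i := 0)
  let i1 : B →* Monoid.CoprodI (F3 A B D) := of (M := F3 A B D) (i := 1)
  let i2 : D →* Monoid.CoprodI (F3 A B D) := of (M := F3 A B D) (i := 2)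
  have hu0 : ∀ x, u (i0 x) = α x := fun x => Monoid.CoprodI.lift_of _ _
  have hu1 : ∀ x, u (i1 x) = β x := fun x => Monoid.CoprodI.lift_of _ _
  have hu2 : ∀ x, u (i2 x) = γ x := fun x => Monoid.CoprodI.lift_of _ _
  let w : Monoid.Coprod A (Monoid.Coprod B D) →* Monoid.CoprodI (F3 A B D) :=
    Monoid.Coprod.lift i0 (Monoid.Coprod.lift i1 i2)
  let f := MulEquiv.ofBijective _ hf
  have huw : u.comp w = f.toMonoidHom := by
    apply Monoid.Coprod.hom_ext
    · ext x
      show u (w (Monoid.Coprod.inl x)) = Monoid.Coprod.lift α (Monoid.Coprod.lift β γ)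
        (Monoid.Coprod.inl x)
      simp [w, hu0]
    · apply Monoid.Coprod.hom_ext
      · ext x
        show u (w (Monoid.Coprod.inr (Monoid.Coprod.inl x))) =
          Monoid.Coprod.lift α (Monoid.Coprod.lift β γ) (Monoid.Coprod.inr (Monoid.Coprod.inl x))
        simp [w, hu1]
      · ext x
        show u (w (Monoid.Coprod.inr (Monoid.Coprod.inr x))) =
          Monoid.Coprod.lift α (Monoid.Coprod.lift β γ) (Monoid.Coprod.inr (Monoid.Coprod.inr x))
        simp [w, hu2]
  have hfi : ∀ x, f x = Monoid.Coprod.lift α (Monoid.Coprod.lift β γ) x := fun _ => rfl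
  have k0 : ∀ x, w (f.symm (u (i0 x))) = i0 x := by
    intro x
    rw [hu0]
    have : f.symm (α x) = Monoid.Coprod.inl x := by
      rw [MulEquiv.symm_apply_eq, hfi]; simp
    rw [this]
    simp [w]
  have k1 : ∀ x, w (f.symm (u (i1 x))) = i1 x := by
    intro x
    rw [hu1]
    have : f.symm (β x) = Monoid.Coprod.inr (Monoid.Coprod.inl x) := by
      rw [MulEquiv.symm_apply_eq, hfi]; simp
    rw [this]
    simp [w]
  have k2 : ∀ x, w (f.symm (u (i2 x))) = i2 x := by
    intro x
    rw [hu2]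
    have : f.symm (γ x) = Monoid.Coprod.inr (Monoid.Coprod.inr x) := by
      rw [MulEquiv.symm_apply_eq, hfi]; simp
    rw [this]
    simp [w]
  refine MonoidHom.toMulEquiv u (w.comp f.symm.toMonoidHom) ?_ ?_
  · apply Monoid.CoprodI.ext_hom
    intro i
    match i with
    | 0 => exact MonoidHom.ext k0
    | 1 => exact MonoidHom.ext k1
    | 2 => exact MonoidHom.ext k2
  · rw [← MonoidHom.comp_assoc, huw]
    ext x
    exact f.apply_symm_apply x

theorem e3_0 (a : A) : e3 α β γ hf (of (M := F3 A B D) (i := 0) a) = α a :=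
  Monoid.CoprodI.lift_of _ _

/-- the isomorphism for two groups -/
noncomputable def e2 [Subsingleton D] : Monoid.CoprodI (F2 A B) ≃* E := by
  let u : Monoid.CoprodI (F2 A B) →* E := Monoid.CoprodI.lift fun
    | 0 => α
    | 1 => β
  let i0 : A →* Monoid.CoprodI (F2 A B) := of (M := F2 A B) (i := 0)
  let i1 : B →* Monoid.CoprodI (F2 A B) := of (M := F2 A B) (i := 1)
  have hu0 : ∀ x, u (i0 x) = α x := fun x => Monoid.CoprodI.lift_of _ _
  have hu1 : ∀ x, u (i1 x) = β x := fun x => Monoid.CoprodI.lift_of _ _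
  let w : Monoid.Coprod A (Monoid.Coprod B D) →* Monoid.CoprodI (F2 A B) :=
    Monoid.Coprod.lift i0 (Monoid.Coprod.lift i1 1)
  let f := MulEquiv.ofBijective _ hf
  have huw : u.comp w = f.toMonoidHom := by
    apply Monoid.Coprod.hom_ext
    · ext x
      show u (w (Monoid.Coprod.inl x)) = Monoid.Coprod.lift α (Monoid.Coprod.lift β γ)
        (Monoid.Coprod.inl x)
      simp [w, hu0]
    · apply Monoid.Coprod.hom_ext
      · ext x
        show u (w (Monoid.Coprod.inr (Monoid.Coprod.inl x))) =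
          Monoid.Coprod.lift α (Monoid.Coprod.lift β γ) (Monoid.Coprod.inr (Monoid.Coprod.inl x))
        simp [w, hu1]
      · ext x
        show u (w (Monoid.Coprod.inr (Monoid.Coprod.inr x))) =
          Monoid.Coprod.lift α (Monoid.Coprod.lift β γ) (Monoid.Coprod.inr (Monoid.Coprod.inr x))
        rw [Subsingleton.elim x 1]
        simp
  have hfi : ∀ x, f x = Monoid.Coprod.lift α (Monoid.Coprod.lift β γ) x := fun _ => rfl
  have k0 : ∀ x, w (f.symm (u (i0 x))) = i0 x := by
    intro x
    rw [hu0]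
    have : f.symm (α x) = Monoid.Coprod.inl x := by
      rw [MulEquiv.symm_apply_eq, hfi]; simp
    rw [this]
    simp [w]
  have k1 : ∀ x, w (f.symm (u (i1 x))) = i1 x := by
    intro x
    rw [hu1]
    have : f.symm (β x) = Monoid.Coprod.inr (Monoid.Coprod.inl x) := by
      rw [MulEquiv.symm_apply_eq, hfi]; simp
    rw [this]
    simp [w]
  refine MonoidHom.toMulEquiv u (w.comp f.symm.toMonoidHom) ?_ ?_
  · apply Monoid.CoprodI.ext_hom
    intro i
    match i with
    | 0 => exact MonoidHom.ext k0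
    | 1 => exact MonoidHom.ext k1
  · rw [← MonoidHom.comp_assoc, huw]
    ext x
    exact f.apply_symm_apply x

theorem e2_0 [Subsingleton D] (a : A) : e2 α β γ hf (of (M := F2 A B) (i := 0) a) = α a :=
  Monoid.CoprodI.lift_of _ _

end

/-- infinite cyclic groups -/
theorem icyc_equiv {B : Type} [Group B] (h : ICyc B) : Nonempty (Multiplicative ℤ ≃* B) := by
  obtain ⟨t, h1, h2⟩ := h
  refine ⟨MulEquiv.ofBijective (zpowersHom B t) ⟨?_, fun g => ?_⟩⟩
  · have h3 : ¬ IsOfFinOrder t := by
      rw [isOfFinOrder_iff_pow_eq_one]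
      rintro ⟨n, hn, h⟩
      exact h2 n hn.ne' h
    intro a b hab
    exact (injective_zpow_iff_not_isOfFinOrder.2 h3) hab
  · obtain ⟨n, hn⟩ := h1 g
    exact ⟨Multiplicative.ofAdd n, hn⟩

/-- the holomorph of an infinite cyclic group -/
theorem C_holZ (hC : ClosedE C) {B : Type} [Group B] (h : ICyc B) : C (Hol B) := by
  have h' := h
  obtain ⟨t, h1, h2⟩ := h
  have h3 : ¬ IsOfFinOrder t := by
    rw [isOfFinOrder_iff_pow_eq_one]
    rintro ⟨n, hn, h⟩
    exact h2 n hn.ne' h
  have hinj := injective_zpow_iff_not_isOfFinOrder.2 h3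
  have key : ∀ φ : MulAut B, φ t = t ∨ φ t = t⁻¹ := by
    intro φ
    obtain ⟨a, ha⟩ := h1 (φ t)
    obtain ⟨b, hb⟩ := h1 (φ⁻¹ t)
    have h4 : t ^ (a * b) = t ^ (1 : ℤ) := by
      rw [zpow_mul, ha, ← map_zpow, hb, MulAut.apply_inv_self, zpow_one]
    have h5 : a * b = 1 := hinj h4
    rcases Int.eq_one_or_neg_one_of_mul_eq_one h5 with rfl | rfl
    · left; rw [← ha, zpow_one]
    · right; rw [← ha, zpow_neg, zpow_one]
  have hfin : Finite (MulAut B) := by
    classical
    refine Finite.of_injective (fun φ : MulAut B => (φ t = t : Prop)) ?_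
    intro φ χ hφχ
    have h4 : φ t = χ t := by
      have h5 : (φ t = t) ↔ (χ t = t) := iff_of_eq hφχ
      rcases key φ with h6 | h6
      · rw [h6, h5.1 h6]
      · rcases key χ with h7 | h7
        · rw [h7, h5.2 h7]
        · rw [h6, h7]
    ext x
    obtain ⟨n, rfl⟩ := h1 x
    rw [map_zpow, map_zpow, h4]
  have hk : (SemidirectProduct.rightHom (φ := MonoidHom.id (MulAut B))).ker.FiniteIndex :=
    Subgroup.finiteIndex_ker _
  refine hC.base.finiteIndex _ _ hk ?_
  rw [← SemidirectProduct.range_inl_eq_ker_rightHom]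
  refine C_equiv hC.base (MonoidHom.ofInjective SemidirectProduct.inl_injective).symm ?_
  obtain ⟨e⟩ := icyc_equiv h'
  exact C_equiv hC.base e.symm hC.base.int

theorem C_holTriv (hC : ClosedE C) {D : Type} [Group D] [Subsingleton D] : C (Hol D) := by
  have h1 : Subsingleton (MulAut D) := ⟨fun φ χ => by ext x; exact Subsingleton.elim _ _⟩
  have h2 : Finite (Hol D) := by
    have : Subsingleton (Hol D) :=
      ⟨fun x y => SemidirectProduct.ext (Subsingleton.elim _ _) (Subsingleton.elim _ _)⟩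
    infer_instance
  exact Pool.Agent.Y430.SS.of_finite hC.base _ h2

/-- nontrivial and not a free product of two nontrivial groups -/
def FInd (G : Type) [Group G] : Prop := Nontrivial G ∧ ¬ Splits G

/-- `G (k + 1)` is the free product of `G k`, `B k` and `D k`, by the homomorphisms `α k`, `β k`
and `γ k` -/
structure Chain (G B D : ℕ → Type) [∀ k, Group (G k)] [∀ k, Group (B k)] [∀ k, Group (D k)] where
  α : ∀ k, G k →* G (k + 1)
  β : ∀ k, B k →* G (k + 1)
  γ : ∀ k, D k →* G (k + 1)
  free : ∀ k, Function.Bijective (Monoid.Coprod.lift (α k) (Monoid.Coprod.lift (β k) (γ k)))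

/-- one step -/
theorem step (hC : ClosedE C) (hF : FbC C) {A B D E : Type} [Group A] [Group B] [Group D] [Group E]
    (α : A →* E) (β : B →* E) (γ : D →* E)
    (hf : Function.Bijective (Monoid.Coprod.lift α (Monoid.Coprod.lift β γ))) (hA : Nontrivial A)
    (hB : FInd B) (h : Subsingleton D ∨ (¬ ICyc B ∧ FInd D ∧ ¬ ICyc D))
    (T : Subgroup (MulAut A)) :
    C (HolT (Ext α T)) ↔ C (HolT T) ∧ C (Hol B) ∧ C (Hol D) := by
  rcases h with h | ⟨h1, h2, h3⟩
  · by_cases hc : ICyc B
    · obtain ⟨e⟩ := icyc_equiv hc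
      have h4 := stepZ (M := F2 A B) T e hC hF hA
      have h6 := ext_tr hC (e2 α β γ hf) (of (M := F2 A B) (i := 0)) α (e2_0 α β γ hf) T
      refine h6.symm.trans <| h4.trans ⟨fun h5 => ⟨h5, C_holZ hC hc, C_holTriv hC⟩, fun h5 => h5.1⟩
    · have h4 := step2 (M := F2 A B) T hC hF hA ⟨hB.1, hB.2, hc⟩
      have h6 := ext_tr hC (e2 α β γ hf) (of (M := F2 A B) (i := 0)) α (e2_0 α β γ hf) T
      refine h6.symm.trans <| h4.trans ⟨fun h5 => ⟨h5.1, h5.2, C_holTriv hC⟩, fun h5 => ⟨h5.1, h5.2.1⟩⟩
  · have h4 := step3 (M := F3 A B D) T hC hF hA ⟨hB.1, hB.2, h1⟩ ⟨h2.1, h2.2, h3⟩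
    have h6 := ext_tr hC (e3 α β γ hf) (of (M := F3 A B D) (i := 0)) α (e3_0 α β γ hf) T
    exact h6.symm.trans h4

section chain

variable {G B D : ℕ → Type} [∀ k, Group (G k)] [∀ k, Group (B k)] [∀ k, Group (D k)]

/-- the group of the automorphisms of `G n` which map all `G k`, `k < n`, onto themselves and
restrict to members of `T` on `G 0` -/
def Stab (X : Chain G B D) (T : Subgroup (MulAut (G 0))) : ∀ n, Subgroup (MulAut (G n))
  | 0 => T
  | n + 1 => Ext (X.α n) (Stab X T n)

theorem chain (hC : ClosedE C) (hF : FbC C) (X : Chain G B D) (h0 : Nontrivial (G 0))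
    (hB : ∀ k, FInd (B k))
    (hD : ∀ k, Subsingleton (D k) ∨ (¬ ICyc (B k) ∧ FInd (D k) ∧ ¬ ICyc (D k)))
    (T : Subgroup (MulAut (G 0))) (n : ℕ) : C (HolT (Stab X T n)) ↔
      C (HolT T) ∧ ∀ k < n, C (Hol (B k)) ∧ C (Hol (D k)) := by
  have hn : ∀ n, Nontrivial (G n) := by
    intro n
    induction n with
    | zero => exact h0
    | succ n ih =>
      have h1 : Function.Injective (X.α n) := by
        have h2 : ∀ x, X.α n x = Monoid.Coprod.lift (X.α n) (Monoid.Coprod.lift (X.β n) (X.γ n))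
            (Monoid.Coprod.inl x) := fun x => by simp
        intro x y hxy
        rw [h2, h2] at hxy
        exact Monoid.Coprod.inl_injective ((X.free n).1 hxy)
      exact h1.nontrivial
  induction n with
  | zero =>
    show C (HolT T) ↔ _
    simp
  | succ n ih =>
    have h1 := step hC hF (X.α n) (X.β n) (X.γ n) (X.free n) (hn n) (hB n) (hD n) (Stab X T n)
    refine h1.trans ?_
    constructor
    · rintro ⟨h23, h4, h5⟩
      obtain ⟨h2, h3⟩ := ih.1 h23
      refine ⟨h2, fun k hk => ?_⟩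
      rcases Nat.lt_succ_iff_lt_or_eq.1 hk with h6 | rfl
      · exact h3 k h6
      · exact ⟨h4, h5⟩
    · rintro ⟨h2, h3⟩
      exact ⟨ih.2 ⟨h2, fun k hk => h3 k (by omega)⟩, h3 n (by omega)⟩

end chain

end Pool.Agent.U166.OF
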